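import Pool.Agent.Work.MP_71b0e8_gt.Skel.Glob1

/-!
Skeleton GLOB2: calculus rules for the global operators, at a point `p` of an open set `U` on which
the functions are smooth (for globally smooth functions take `U = univ`, `Atl.Sm.on`).
They all follow from the chart formulas and the rules of `Loc3`, `Loc4`, `Loc6`.
-/

open scoped ContDiff Topology
open MeasureTheory Metric Set Filter

noncomputable section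

namespace YR

variable {M : Type*} [TopologicalSpace M] {𝒜 : Atl M} (𝒢 : Met 𝒜) {U V : Set M}
  {u v w f k : M → ℝ} {p : M}

namespace Met

/-- `S(∇u,∇v)`, `S = Ric - (R/4) g` -/
def Sv (u v : M → ℝ) (p : M) : ℝ := 𝒢.ricv u v p - 𝒢.scal p / 4 * 𝒢.inn u v p

/-- `T(w)(∇u,∇v)`, `T(w) = Hess w + w S - ρ(w) g` -/
def Tv (w u v : M → ℝ) (p : M) : ℝ :=
  𝒢.hessv w u v p + w p * 𝒢.Sv u v p - 𝒢.rho w p * 𝒢.inn u v p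

/-! ### GLOB2a : no smoothness needed -/

theorem inn_symm (u v : M → ℝ) (p : M) : 𝒢.inn u v p = 𝒢.inn v u p := by sorry

theorem inn_self_nonneg (u : M → ℝ) (p : M) : 0 ≤ 𝒢.inn u u p := by sorry

theorem inn_sq_le (u v : M → ℝ) (p : M) : 𝒢.inn u v p ^ 2 ≤ 𝒢.inn u u p * 𝒢.inn v v p := by sorry

theorem abs_inn_le (u v : M → ℝ) (p : M) :
    |𝒢.inn u v p| ≤ √(𝒢.inn u u p) * √(𝒢.inn v v p) := by sorry

theorem h2_nonneg (u : M → ℝ) (p : M) : 0 ≤ 𝒢.h2 u p := by sorry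

theorem t2_nonneg (u : M → ℝ) (p : M) : 0 ≤ 𝒢.t2 u p := by sorry

theorem e2_nonneg (p : M) : 0 ≤ 𝒢.e2 p := by sorry

theorem q2_nonneg (u : M → ℝ) (p : M) : 0 ≤ 𝒢.q2 u p := by sorry

theorem lap_sq_le (u : M → ℝ) (p : M) : 𝒢.lap u p ^ 2 ≤ 3 * 𝒢.h2 u p := by sorry

theorem hessv_sq_le (w u v : M → ℝ) (p : M) :
    𝒢.hessv w u v p ^ 2 ≤ 𝒢.h2 w p * 𝒢.inn u u p * 𝒢.inn v v p := by sorry

theorem Tv_sq_le (w u v : M → ℝ) (p : M) :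
    𝒢.Tv w u v p ^ 2 ≤ 𝒢.t2 w p * 𝒢.inn u u p * 𝒢.inn v v p := by sorry

/-- `h = h⁰ + (tr h / 3) g` for the Hessian; `(Hess w)⁰ = T(w) - w Ric⁰` -/
theorem h2_le (w : M → ℝ) (p : M) :
    𝒢.h2 w p ≤ 𝒢.lap w p ^ 2 / 3 + 2 * 𝒢.t2 w p + 2 * w p ^ 2 * 𝒢.e2 p := by sorry

theorem t2_le (w : M → ℝ) (p : M) : 𝒢.t2 w p ≤ 2 * 𝒢.h2 w p + 2 * w p ^ 2 * 𝒢.e2 p := by sorry

theorem ricv_symm (u v : M → ℝ) (p : M) : 𝒢.ricv u v p = 𝒢.ricv v u p := by sorry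

/-- `|Ric⁰(∇u,∇v)| ≤ |Ric⁰| |∇u| |∇v|` -/
theorem ricv_sq_le (u v : M → ℝ) (p : M) :
    (𝒢.ricv u v p - 𝒢.scal p / 3 * 𝒢.inn u v p) ^ 2 ≤ 𝒢.e2 p * 𝒢.inn u u p * 𝒢.inn v v p := by
  sorry

theorem eh_sq_le (u : M → ℝ) (p : M) : 𝒢.eh u p ^ 2 ≤ 𝒢.e2 p * 𝒢.h2 u p := by sorry

theorem sig2_eq (p : M) : 𝒢.sig2 p = 𝒢.scal p ^ 2 / 48 - 𝒢.e2 p / 2 := by sorry

/-- curvature bounds on a compact manifold -/
theorem exists_curv_bound [CompactSpace M] : ∃ C : ℝ, 0 < C ∧ (∀ p, |𝒢.scal p| ≤ C) ∧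
    (∀ p, 𝒢.e2 p ≤ C ^ 2) ∧ (∀ u v p, |𝒢.ricv u v p| ≤ C * √(𝒢.inn u u p) * √(𝒢.inn v v p)) := by
  sorry

/-! ### GLOB2b : first order rules -/

theorem inn_const (c : ℝ) (v : M → ℝ) (p : M) : 𝒢.inn (fun _ => c) v p = 0 := by sorry

theorem inn_add (hU : IsOpen U) (hp : p ∈ U) (hu : 𝒜.SmOn U u) (hv : 𝒜.SmOn U v) :
    𝒢.inn (fun q => u q + v q) f p = 𝒢.inn u f p + 𝒢.inn v f p := by sorry

theorem inn_sub (hU : IsOpen U) (hp : p ∈ U) (hu : 𝒜.SmOn U u) (hv : 𝒜.SmOn U v) :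
    𝒢.inn (fun q => u q - v q) f p = 𝒢.inn u f p - 𝒢.inn v f p := by sorry

theorem inn_const_mul (hU : IsOpen U) (hp : p ∈ U) (hu : 𝒜.SmOn U u) (c : ℝ) :
    𝒢.inn (fun q => c * u q) f p = c * 𝒢.inn u f p := by sorry

theorem inn_mul (hU : IsOpen U) (hp : p ∈ U) (hu : 𝒜.SmOn U u) (hv : 𝒜.SmOn U v) :
    𝒢.inn (fun q => u q * v q) f p = u p * 𝒢.inn v f p + v p * 𝒢.inn u f p := by sorry

theorem inn_comp (hU : IsOpen U) (hp : p ∈ U) (hu : 𝒜.SmOn U u) {F : ℝ → ℝ} {F' : ℝ}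
    (hF : HasDerivAt F F' (u p)) : 𝒢.inn (fun q => F (u q)) f p = F' * 𝒢.inn u f p := by sorry

theorem inn_sum (hU : IsOpen U) (hp : p ∈ U) {ι : Type*} {s : Finset ι} {h : ι → M → ℝ}
    (hh : ∀ i ∈ s, 𝒜.SmOn U (h i)) :
    𝒢.inn (fun q => ∑ i ∈ s, h i q) f p = ∑ i ∈ s, 𝒢.inn (h i) f p := by sorry

/-- `f` locally constant when `|df|² = 0` -/
theorem const_of_inn_self [ConnectedSpace M] (hu : 𝒜.Sm u) (h : ∀ p, 𝒢.inn u u p = 0) :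
    ∃ c, ∀ p, u p = c := by sorry

/-- if `df ⊥ du` for all `f`, then `|du|² = 0` etc -/
theorem const_of_inn [ConnectedSpace M] (hu : 𝒜.Sm u) (h : ∀ f, 𝒜.Sm f → ∀ p, 𝒢.inn u f p = 0) :
    ∃ c, ∀ p, u p = c := by sorry

/-! ### GLOB2c : second order rules -/

theorem lap_const (c : ℝ) (p : M) : 𝒢.lap (fun _ => c) p = 0 := by sorry

theorem lap_add (hU : IsOpen U) (hp : p ∈ U) (hu : 𝒜.SmOn U u) (hv : 𝒜.SmOn U v) :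
    𝒢.lap (fun q => u q + v q) p = 𝒢.lap u p + 𝒢.lap v p := by sorry

theorem lap_sub (hU : IsOpen U) (hp : p ∈ U) (hu : 𝒜.SmOn U u) (hv : 𝒜.SmOn U v) :
    𝒢.lap (fun q => u q - v q) p = 𝒢.lap u p - 𝒢.lap v p := by sorry

theorem lap_const_mul (hU : IsOpen U) (hp : p ∈ U) (hu : 𝒜.SmOn U u) (c : ℝ) :
    𝒢.lap (fun q => c * u q) p = c * 𝒢.lap u p := by sorry

theorem lap_sum (hU : IsOpen U) (hp : p ∈ U) {ι : Type*} {s : Finset ι} {h : ι → M → ℝ}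
    (hh : ∀ i ∈ s, 𝒜.SmOn U (h i)) :
    𝒢.lap (fun q => ∑ i ∈ s, h i q) p = ∑ i ∈ s, 𝒢.lap (h i) p := by sorry

theorem lap_mul (hU : IsOpen U) (hp : p ∈ U) (hu : 𝒜.SmOn U u) (hv : 𝒜.SmOn U v) :
    𝒢.lap (fun q => u q * v q) p = u p * 𝒢.lap v p + v p * 𝒢.lap u p + 2 * 𝒢.inn u v p := by
  sorry

theorem lap_comp (hU : IsOpen U) (hp : p ∈ U) (hu : 𝒜.SmOn U u) {F : ℝ → ℝ} {S : Set ℝ}
    (hS : IsOpen S) (hF : ContDiffOn ℝ ∞ F S) (hm : ∀ q ∈ U, u q ∈ S) :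
    𝒢.lap (fun q => F (u q)) p =
      deriv F (u p) * 𝒢.lap u p + deriv (deriv F) (u p) * 𝒢.inn u u p := by sorry

theorem hessv_symm (hU : IsOpen U) (hp : p ∈ U) (hw : 𝒜.SmOn U w) (u v : M → ℝ) :
    𝒢.hessv w u v p = 𝒢.hessv w v u p := by sorry

theorem hessv_add (hU : IsOpen U) (hp : p ∈ U) (hw : 𝒜.SmOn U w) (hf : 𝒜.SmOn U f)
    (u v : M → ℝ) :
    𝒢.hessv (fun q => w q + f q) u v p = 𝒢.hessv w u v p + 𝒢.hessv f u v p := by sorry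

theorem hessv_const_mul (hU : IsOpen U) (hp : p ∈ U) (hw : 𝒜.SmOn U w) (c : ℝ) (u v : M → ℝ) :
    𝒢.hessv (fun q => c * w q) u v p = c * 𝒢.hessv w u v p := by sorry

theorem hessv_mul (hU : IsOpen U) (hp : p ∈ U) (hw : 𝒜.SmOn U w) (hf : 𝒜.SmOn U f)
    (u v : M → ℝ) : 𝒢.hessv (fun q => w q * f q) u v p =
      w p * 𝒢.hessv f u v p + f p * 𝒢.hessv w u v p +
        𝒢.inn w u p * 𝒢.inn f v p + 𝒢.inn w v p * 𝒢.inn f u p := by sorry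

theorem hessv_comp (hU : IsOpen U) (hp : p ∈ U) (hw : 𝒜.SmOn U w) {F : ℝ → ℝ} {S : Set ℝ}
    (hS : IsOpen S) (hF : ContDiffOn ℝ ∞ F S) (hm : ∀ q ∈ U, w q ∈ S) (u v : M → ℝ) :
    𝒢.hessv (fun q => F (w q)) u v p = deriv F (w p) * 𝒢.hessv w u v p +
      deriv (deriv F) (w p) * (𝒢.inn w u p * 𝒢.inn w v p) := by sorry

/-- linearity in the vectors -/
theorem hessv_mul_left (hU : IsOpen U) (hp : p ∈ U) (hu : 𝒜.SmOn U u) (hf : 𝒜.SmOn U f)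
    (w v : M → ℝ) : 𝒢.hessv w (fun q => u q * f q) v p =
      u p * 𝒢.hessv w f v p + f p * 𝒢.hessv w u v p := by sorry

theorem ricv_mul_left (hU : IsOpen U) (hp : p ∈ U) (hu : 𝒜.SmOn U u) (hf : 𝒜.SmOn U f)
    (v : M → ℝ) : 𝒢.ricv (fun q => u q * f q) v p = u p * 𝒢.ricv f v p + f p * 𝒢.ricv u v p := by
  sorry

theorem hessv_comp_left (hU : IsOpen U) (hp : p ∈ U) (hu : 𝒜.SmOn U u) {F : ℝ → ℝ} {F' : ℝ}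
    (hF : HasDerivAt F F' (u p)) (w v : M → ℝ) :
    𝒢.hessv w (fun q => F (u q)) v p = F' * 𝒢.hessv w u v p := by sorry

theorem ricv_comp_left (hU : IsOpen U) (hp : p ∈ U) (hu : 𝒜.SmOn U u) {F : ℝ → ℝ} {F' : ℝ}
    (hF : HasDerivAt F F' (u p)) (v : M → ℝ) :
    𝒢.ricv (fun q => F (u q)) v p = F' * 𝒢.ricv u v p := by sorry

/-- `⟨df, d⟨du,dv⟩⟩ = Hess u(∇f,∇v) + Hess v(∇f,∇u)` -/
theorem inn_inn (hU : IsOpen U) (hp : p ∈ U) (hu : 𝒜.SmOn U u) (hv : 𝒜.SmOn U v) (f : M → ℝ) :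
    𝒢.inn f (𝒢.inn u v) p = 𝒢.hessv u f v p + 𝒢.hessv v f u p := by sorry

theorem hessv_polar (hU : IsOpen U) (hp : p ∈ U) (hw : 𝒜.SmOn U w) (hu : 𝒜.SmOn U u)
    (hv : 𝒜.SmOn U v) : 2 * 𝒢.hessv w u v p =
      𝒢.inn u (𝒢.inn w v) p + 𝒢.inn v (𝒢.inn w u) p - 𝒢.inn w (𝒢.inn u v) p := by sorry

theorem bochner (hU : IsOpen U) (hp : p ∈ U) (hu : 𝒜.SmOn U u) :
    𝒢.lap (𝒢.inn u u) p / 2 = 𝒢.h2 u p + 𝒢.inn u (𝒢.lap u) p + 𝒢.ricv u u p := by sorry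

/-- Kato -/
theorem kato (hU : IsOpen U) (hp : p ∈ U) (hu : 𝒜.SmOn U u) :
    𝒢.inn (𝒢.inn u u) (𝒢.inn u u) p ≤ 4 * 𝒢.h2 u p * 𝒢.inn u u p := by sorry

/-- `|T(w)|² = |Hess w|² - (Δw)²/3 + 2 w ⟨Ric⁰, Hess w⟩ + w² |Ric⁰|²` -/
theorem t2_eq (w : M → ℝ) (p : M) : 𝒢.t2 w p =
    𝒢.h2 w p - 𝒢.lap w p ^ 2 / 3 + 2 * w p * 𝒢.eh w p + w p ^ 2 * 𝒢.e2 p := by sorry

/-- `Q(f) = (Hess f - df ⊗ df / 2)⁰` -/
theorem q2_eq (f : M → ℝ) (p : M) : 𝒢.q2 f p =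
    𝒢.e2 p + (𝒢.h2 f p - 𝒢.lap f p ^ 2 / 3) + 𝒢.inn f f p ^ 2 / 6 - 2 * 𝒢.eh f p +
      (𝒢.ricv f f p - 𝒢.scal p / 3 * 𝒢.inn f f p) -
      (𝒢.hessv f f f p - 𝒢.lap f p * 𝒢.inn f f p / 3) := by sorry

/-! ### GLOB2d : extrema -/

theorem inn_eq_zero_of_isLocalExtr (hU : IsOpen U) (hp : p ∈ U) (hu : 𝒜.SmOn U u)
    (h : IsLocalExtr u p) (v : M → ℝ) : 𝒢.inn u v p = 0 := by sorry

theorem lap_nonpos_of_isLocalMax (hU : IsOpen U) (hp : p ∈ U) (hu : 𝒜.SmOn U u)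
    (h : IsLocalMax u p) : 𝒢.lap u p ≤ 0 := by sorry

theorem lap_nonneg_of_isLocalMin (hU : IsOpen U) (hp : p ∈ U) (hu : 𝒜.SmOn U u)
    (h : IsLocalMin u p) : 0 ≤ 𝒢.lap u p := by sorry

/-! ### GLOB2e : the system `T = 0` and the form `B` -/

theorem rho_add (hU : IsOpen U) (hp : p ∈ U) (hu : 𝒜.SmOn U u) (hv : 𝒜.SmOn U v) :
    𝒢.rho (fun q => u q + v q) p = 𝒢.rho u p + 𝒢.rho v p := by sorry

theorem rho_const_mul (hU : IsOpen U) (hp : p ∈ U) (hu : 𝒜.SmOn U u) (c : ℝ) :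
    𝒢.rho (fun q => c * u q) p = c * 𝒢.rho u p := by sorry

theorem bb_symm (u v : M → ℝ) (p : M) : 𝒢.bb u v p = 𝒢.bb v u p := by sorry

theorem bb_add (hU : IsOpen U) (hp : p ∈ U) (hu : 𝒜.SmOn U u) (hv : 𝒜.SmOn U v) (f : M → ℝ) :
    𝒢.bb (fun q => u q + v q) f p = 𝒢.bb u f p + 𝒢.bb v f p := by sorry

theorem bb_const_mul (hU : IsOpen U) (hp : p ∈ U) (hu : 𝒜.SmOn U u) (c : ℝ) (f : M → ℝ) :
    𝒢.bb (fun q => c * u q) f p = c * 𝒢.bb u f p := by sorry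

/-- `dB(u,v) = v (dρ(u) + S∇u) + u (dρ(v) + S∇v) - T(u)∇v - T(v)∇u` -/
theorem inn_bb (hU : IsOpen U) (hp : p ∈ U) (hu : 𝒜.SmOn U u) (hv : 𝒜.SmOn U v) (f : M → ℝ) :
    𝒢.inn f (𝒢.bb u v) p =
      v p * (𝒢.inn f (𝒢.rho u) p + 𝒢.Sv f u p) + u p * (𝒢.inn f (𝒢.rho v) p + 𝒢.Sv f v p) -
        𝒢.Tv u f v p - 𝒢.Tv v f u p := by sorry

/-- `T(u) = 0` on `U` implies `dρ(u) = -S∇u` on `U` -/
theorem inn_rho_of_t2 (hU : IsOpen U) (hp : p ∈ U) (hu : 𝒜.SmOn U u)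
    (h0 : ∀ q ∈ U, 𝒢.t2 u q = 0) (f : M → ℝ) : 𝒢.inn f (𝒢.rho u) p = -𝒢.Sv f u p := by sorry

/-- `T(u) = 0` at `p` implies `Hess u = -u S + ρ(u) g` at `p` -/
theorem hessv_of_t2 (h0 : 𝒢.t2 w p = 0) (u v : M → ℝ) :
    𝒢.hessv w u v p = -(w p * 𝒢.Sv u v p) + 𝒢.rho w p * 𝒢.inn u v p := by sorry

theorem t2_add_eq_zero (hU : IsOpen U) (hp : p ∈ U) (hu : 𝒜.SmOn U u) (hv : 𝒜.SmOn U v)
    (h1 : 𝒢.t2 u p = 0) (h2 : 𝒢.t2 v p = 0) : 𝒢.t2 (fun q => u q + v q) p = 0 := by sorry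

theorem t2_const_mul (hU : IsOpen U) (hp : p ∈ U) (hu : 𝒜.SmOn U u) (c : ℝ) :
    𝒢.t2 (fun q => c * u q) p = c ^ 2 * 𝒢.t2 u p := by sorry

/-- `B(u,v)` is constant if `T(u) = T(v) = 0` -/
theorem inn_bb_eq_zero (hU : IsOpen U) (hp : p ∈ U) (hu : 𝒜.SmOn U u) (hv : 𝒜.SmOn U v)
    (h1 : ∀ q ∈ U, 𝒢.t2 u q = 0) (h2 : ∀ q ∈ U, 𝒢.t2 v q = 0) (f : M → ℝ) :
    𝒢.inn f (𝒢.bb u v) p = 0 := by sorry

end Met

end YR
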