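import Pool.Agent.Work.MP_71b0e8_gt.Skel.Loc7
import Pool.Agent.Work.MP_71b0e8_gt.Skel.Glob2

/-!
Skeleton CONF: the metric `w⁻² g`, globally.
-/

open scoped ContDiff Topology
open MeasureTheory Metric Set Filter

noncomputable section

namespace YR

variable {M : Type*} [TopologicalSpace M] {𝒜 : Atl M} (𝒢 : Met 𝒜) {U V : Set M}
  {u v w f k : M → ℝ} (hw : 𝒜.Sm w) (hpos : ∀ p, 0 < w p) {p : M}

namespace Met

@[ext] theorem ext' {𝒢 ℋ : Met 𝒜} (h : ∀ i, 𝒢.g i = ℋ.g i) : 𝒢 = ℋ := by sorry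

theorem inn_conf (u v : M → ℝ) (p : M) :
    (𝒢.conf w hw hpos).inn u v p = w p ^ 2 * 𝒢.inn u v p := by sorry

theorem lap_conf (hU : IsOpen U) (hp : p ∈ U) (hu : 𝒜.SmOn U u) :
    (𝒢.conf w hw hpos).lap u p = w p ^ 2 * 𝒢.lap u p - w p * 𝒢.inn w u p := by sorry

theorem hessv_conf (hU : IsOpen U) (hp : p ∈ U) (hf : 𝒜.SmOn U f) (u v : M → ℝ) :
    (𝒢.conf w hw hpos).hessv f u v p = w p ^ 4 * (𝒢.hessv f u v p +
      (𝒢.inn w u p * 𝒢.inn f v p + 𝒢.inn w v p * 𝒢.inn f u p - 𝒢.inn w f p * 𝒢.inn u v p) /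
        w p) := by sorry

theorem ricv_conf (u v : M → ℝ) (p : M) :
    (𝒢.conf w hw hpos).ricv u v p = w p ^ 4 * (𝒢.ricv u v p + 𝒢.hessv w u v p / w p +
      (𝒢.lap w p / w p - 2 * 𝒢.inn w w p / w p ^ 2) * 𝒢.inn u v p) := by sorry

theorem scal_conf (p : M) : (𝒢.conf w hw hpos).scal p = 6 * 𝒢.bb w w p := by sorry

theorem e2_conf (p : M) : (𝒢.conf w hw hpos).e2 p = w p ^ 2 * 𝒢.t2 w p := by sorry

theorem sig2_conf (p : M) : (𝒢.conf w hw hpos).sig2 p =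
    3 / 4 * 𝒢.bb w w p ^ 2 - w p ^ 2 * 𝒢.t2 w p / 2 := by sorry

/-- `T_ĝ(u) = T(u w)/w` -/
theorem t2_conf (hU : IsOpen U) (hp : p ∈ U) (hu : 𝒜.SmOn U u) :
    (𝒢.conf w hw hpos).t2 u p = w p ^ 2 * 𝒢.t2 (fun q => u q * w q) p := by sorry

theorem bb_conf (hU : IsOpen U) (hp : p ∈ U) (hu : 𝒜.SmOn U u) (hv : 𝒜.SmOn U v) :
    (𝒢.conf w hw hpos).bb u v p = 𝒢.bb (fun q => u q * w q) (fun q => v q * w q) p := by sorry

/-- `|Hess_ĝ u|²_ĝ` when `Δ_ĝ u` is split off: `|(Hess_ĝ u)⁰|² = w² |T(u w) - u T(w)|²`;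
in particular if `T(w) = 0` near `p` -/
theorem h2_conf_of_t2 (hU : IsOpen U) (hp : p ∈ U) (hu : 𝒜.SmOn U u) (h0 : 𝒢.t2 w p = 0) :
    (𝒢.conf w hw hpos).h2 u p = w p ^ 2 * 𝒢.t2 (fun q => u q * w q) p +
      (𝒢.conf w hw hpos).lap u p ^ 2 / 3 := by sorry

/-- conformal covariance of `L`, `W = w^{-1/2}` -/
theorem L_conf (hU : IsOpen U) (hp : p ∈ U) (hu : 𝒜.SmOn U u) :
    (𝒢.conf w hw hpos).L u p =
      w p ^ (5 / 2 : ℝ) * 𝒢.L (fun q => w q ^ (-1 / 2 : ℝ) * u q) p := by sorry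

theorem scal_conf_L (p : M) : (𝒢.conf w hw hpos).scal p =
      w p ^ (5 / 2 : ℝ) * 𝒢.L (fun q => w q ^ (-1 / 2 : ℝ)) p := by sorry

theorem conf_conf (hf : 𝒜.Sm f) (hfp : ∀ p, 0 < f p) :
    (𝒢.conf w hw hpos).conf f hf hfp =
      𝒢.conf (fun q => f q * w q) (Atl.Sm.mul hf hw) fun q => mul_pos (hfp q) (hpos q) := by sorry

/-- constant factor -/
theorem scal_conf_const (c : ℝ) (hc : 0 < c) (p : M) :
    (𝒢.conf (fun _ => c) (Atl.Sm.const c) fun _ => hc).scal p = c ^ 2 * 𝒢.scal p := by sorry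

theorem bb_self_min (hU : IsOpen U) (hp : p ∈ U) (hu : 𝒜.SmOn U u) (hm : IsLocalMin u p)
    (h0 : 0 < u p) (hs : 0 < 𝒢.scal p) : 0 < 𝒢.bb u u p := by sorry

end Met

end YR
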