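import Pool.Agent.Work.MP_71b0e8_gt.Skel.Loc8
import Pool.Agent.Work.MP_71b0e8_gt.Skel.Conf

/-!
Skeleton INT: the Riemannian measure and integration by parts.
-/

open scoped ContDiff Topology
open MeasureTheory Metric Set Filter

noncomputable section

namespace YR

variable {M : Type*} [TopologicalSpace M] [T2Space M] [CompactSpace M] [MeasurableSpace M]
  [BorelSpace M] {𝒜 : Atl M} (𝒢 : Met 𝒜) {U V : Set M} {u v w f k : M → ℝ}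

namespace Met

/-! ### INT1 : the measure -/

instance instFinVol : IsFiniteMeasure 𝒢.vol := by sorry

instance instPosVol : 𝒢.vol.IsOpenPosMeasure := by sorry

instance instNoAtomsVol : NullSingletonClass 𝒢.vol := by sorry

/-- the measure in the chart `i` is `√det g dz` (change of variables, `CC.sqrt_det`) -/
theorem vol_chart (i : Fin 𝒜.n) : 𝒢.vol.restrict (𝒜.φ i).source =
    Measure.map (𝒜.φ i).symm ((volume.restrict (ball 0 4)).withDensity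
      fun z => ENNReal.ofReal (√(𝒢.g i z).det)) := by sorry

/-- a measure which is `√det g dz` in every chart is the Riemannian measure -/
theorem vol_unique (μ : Measure M) (h : ∀ i, μ.restrict (𝒜.φ i).source =
    Measure.map (𝒜.φ i).symm ((volume.restrict (ball 0 4)).withDensity
      fun z => ENNReal.ofReal (√(𝒢.g i z).det))) : μ = 𝒢.vol := by sorry

/-- integral of a function supported in a chart -/
theorem integral_chart (i : Fin 𝒜.n) {f : M → ℝ} (hf : ∀ p, p ∉ (𝒜.φ i).source → f p = 0) :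
    ∫ p, f p ∂𝒢.vol = ∫ z in ball (0 : E) 4, 𝒜.rd f i z * √(𝒢.g i z).det := by sorry

theorem integrable_chart (i : Fin 𝒜.n) {f : M → ℝ} (hf : ∀ p, p ∉ (𝒜.φ i).source → f p = 0) :
    Integrable f 𝒢.vol ↔
      IntegrableOn (fun z => 𝒜.rd f i z * √(𝒢.g i z).det) (ball (0 : E) 4) := by sorry

/-- integral over a compact part of a chart is bounded by the integral over `M` -/
theorem chart_integral_le (i : Fin 𝒜.n) {K : Set E} (hK : IsCompact K) (hK4 : K ⊆ ball 0 4) :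
    ∃ C : ℝ, 0 < C ∧ ∀ f : M → ℝ, Integrable f 𝒢.vol → (∀ p, 0 ≤ f p) →
      IntegrableOn (𝒜.rd f i) K ∧ ∫ z in K, 𝒜.rd f i z ≤ C * ∫ p, f p ∂𝒢.vol := by sorry

/-- and conversely -/
theorem integral_le_charts : ∃ C : ℝ, 0 < C ∧ ∀ f : M → ℝ, Integrable f 𝒢.vol → (∀ p, 0 ≤ f p) →
    ∫ p, f p ∂𝒢.vol ≤ C * ∑ i, ∫ z in ball (0 : E) 1, 𝒜.rd f i z := by sorry

theorem integrable_of_continuous {f : M → ℝ} (hf : Continuous f) : Integrable f 𝒢.vol := by sorry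

theorem integrable_sm (hu : 𝒜.Sm u) : Integrable u 𝒢.vol := by sorry

theorem V_pos [Nonempty M] : 0 < 𝒢.V := by sorry

theorem eq_zero_of_integral_eq_zero {f : M → ℝ} (hf : Continuous f) (h0 : ∀ p, 0 ≤ f p)
    (h : ∫ p, f p ∂𝒢.vol = 0) : ∀ p, f p = 0 := by sorry

theorem integral_pos [Nonempty M] {f : M → ℝ} (hf : Continuous f) (h0 : ∀ p, 0 < f p) :
    0 < ∫ p, f p ∂𝒢.vol := by sorry

/-! ### INT2 : integration by parts (partition of unity, `div_grad`, `div_ric0_grad`) -/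

theorem integral_lap (hu : 𝒜.Sm u) : ∫ p, 𝒢.lap u p ∂𝒢.vol = 0 := by sorry

theorem integral_inn (hu : 𝒜.Sm u) (hv : 𝒜.Sm v) :
    ∫ p, 𝒢.inn u v p ∂𝒢.vol = -∫ p, u p * 𝒢.lap v p ∂𝒢.vol := by sorry

theorem integral_mul_inn (hf : 𝒜.Sm f) (hu : 𝒜.Sm u) (hv : 𝒜.Sm v) :
    ∫ p, f p * 𝒢.inn u v p ∂𝒢.vol =
      -∫ p, u p * (f p * 𝒢.lap v p + 𝒢.inn f v p) ∂𝒢.vol := by sorry

theorem integral_lap_symm (hu : 𝒜.Sm u) (hv : 𝒜.Sm v) :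
    ∫ p, u p * 𝒢.lap v p ∂𝒢.vol = ∫ p, v p * 𝒢.lap u p ∂𝒢.vol := by sorry

theorem integral_L_symm (hu : 𝒜.Sm u) (hv : 𝒜.Sm v) :
    ∫ p, u p * 𝒢.L v p ∂𝒢.vol = ∫ p, v p * 𝒢.L u p ∂𝒢.vol := by sorry

/-- Bochner with a cut off -/
theorem integral_bochner (hf : 𝒜.Sm f) (hu : 𝒜.Sm u) :
    ∫ p, f p * (𝒢.h2 u p - 𝒢.lap u p ^ 2 + 𝒢.ricv u u p) ∂𝒢.vol =
      ∫ p, (𝒢.lap u p * 𝒢.inn f u p - 𝒢.inn f (𝒢.inn u u) p / 2) ∂𝒢.vol := by sorry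

/-- `∫ f ⟨Ric⁰, Hess u⟩`, from `div Ric⁰ = dR/6` -/
theorem integral_eh (hf : 𝒜.Sm f) (hu : 𝒜.Sm u) :
    ∫ p, f p * 𝒢.eh u p ∂𝒢.vol = -∫ p, (f p * 𝒢.inn 𝒢.scal u p / 6 +
      (𝒢.ricv u f p - 𝒢.scal p / 3 * 𝒢.inn u f p)) ∂𝒢.vol := by sorry

/-! ### INT3 : the conformal metric -/

theorem vol_conf (hw : 𝒜.Sm w) (hpos : ∀ p, 0 < w p) : (𝒢.conf w hw hpos).vol =
    𝒢.vol.withDensity fun p => ENNReal.ofReal ((w p)⁻¹ ^ 3) := by sorry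

theorem integral_conf (hw : 𝒜.Sm w) (hpos : ∀ p, 0 < w p) (f : M → ℝ) :
    ∫ p, f p ∂(𝒢.conf w hw hpos).vol = ∫ p, f p * (w p)⁻¹ ^ 3 ∂𝒢.vol := by sorry

theorem V_conf (hw : 𝒜.Sm w) (hpos : ∀ p, 0 < w p) :
    (𝒢.conf w hw hpos).V = ∫ p, (w p)⁻¹ ^ 3 ∂𝒢.vol := by sorry

theorem S1_conf (hw : 𝒜.Sm w) (hpos : ∀ p, 0 < w p) :
    (𝒢.conf w hw hpos).S1 = ∫ p, 3 / 2 * 𝒢.bb w w p * (w p)⁻¹ ^ 3 ∂𝒢.vol := by sorry

theorem S2_conf (hw : 𝒜.Sm w) (hpos : ∀ p, 0 < w p) : (𝒢.conf w hw hpos).S2 =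
    ∫ p, (3 / 4 * 𝒢.bb w w p ^ 2 * (w p)⁻¹ ^ 3 - 𝒢.t2 w p / w p / 2) ∂𝒢.vol := by sorry

/-- `S₁ = (1/4) ∫ W L W`, `W = w^{-1/2}` -/
theorem S1_conf_L (hw : 𝒜.Sm w) (hpos : ∀ p, 0 < w p) : (𝒢.conf w hw hpos).S1 =
    1 / 4 * ∫ p, w p ^ (-1 / 2 : ℝ) * 𝒢.L (fun q => w q ^ (-1 / 2 : ℝ)) p ∂𝒢.vol := by sorry

/-- the identity (I7): first order formula for `∫ σ₂` -/
theorem S2_conf_J (hw : 𝒜.Sm w) (hpos : ∀ p, 0 < w p) : (𝒢.conf w hw hpos).S2 =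
    ∫ p, (w p * 𝒢.sig2 p - 𝒢.inn w w p * 𝒢.lap w p / w p ^ 2 / 4 +
      𝒢.inn w w p ^ 2 / w p ^ 3 / 4 + 𝒢.ricv w w p / w p / 2 -
        𝒢.scal p * 𝒢.inn w w p / w p / 4) ∂𝒢.vol := by sorry

end Met

end YR
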