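import Pool.Agent.Work.MP_71b0e8_gt.DefsA

/-! MP_71b0e8_gt, module Weak1. -/

open scoped ContDiff Topology
open MeasureTheory Metric Set Filter

noncomputable section

namespace YR


/-- (WEAK1) a weak limit with gradient in `L⁴` is represented by a continuous function -/
theorem weak_morrey {x0 : E} {r : ℝ} (u : ℕ → E → ℝ) (hu : ∀ n, ContinuousOn (u n) (ball x0 r))
    (l : (E → ℝ) → ℝ)
    (hl : ∀ φ, Tst (ball x0 r) φ → Tendsto (fun n => ∫ x, u n x * φ x) atTop (𝓝 (l φ)))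
    (C1 : ℝ) (h1 : ∀ n φ, Tst (ball x0 r) φ → ∀ K, (∀ x, |φ x| ≤ K) → (∀ x, ‖fderiv ℝ φ x‖ ≤ K) →
      |∫ x, u n x * φ x| ≤ C1 * K)
    (C2 : ℝ) (h2 : ∀ φ, Tst (ball x0 r) φ → ∀ a, |l (pd a φ)| ≤
      C2 * (∫ x, |φ x| ^ (4 / 3 : ℝ)) ^ (3 / 4 : ℝ)) :
    ∃ U : E → ℝ, ContinuousOn U (ball x0 r) ∧
      ∀ φ, Tst (ball x0 r) φ → l φ = ∫ x, U x * φ x := by sorry

end YR
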