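import Pool.Agent.Work.MP_71b0e8_gt.DefsA

/-! MP_71b0e8_gt, module Weak2. -/

open scoped ContDiff Topology
open MeasureTheory Metric Set Filter

noncomputable section

namespace YR


/-- (WEAK2) continuous weak derivatives are classical -/
theorem weak_deriv {B : Set E} (hB : IsOpen B) {U : E → ℝ} (hU : ContinuousOn U B)
    {V : Fin 3 → E → ℝ} (hV : ∀ a, ContinuousOn (V a) B)
    (h : ∀ φ, Tst B φ → ∀ a, ∫ x, U x * pd a φ x = - ∫ x, V a x * φ x) :
    ContDiffOn ℝ 1 U B ∧ ∀ a, ∀ x ∈ B, pd a U x = V a x := by sorry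

end YR
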