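import Pool.Agent.Work.MP_71b0e8_gt.DefsA
import Pool.Agent.Work.MP_71b0e8_gt.Skel.Weak1
import Pool.Agent.Work.MP_71b0e8_gt.Skel.Weak2

/-! MP_71b0e8_gt, module RegAbs. -/

open scoped ContDiff Topology
open MeasureTheory Metric Set Filter

noncomputable section

namespace YR


/-- (REGABS) regularity of weak limits for a closed linear system -/
theorem regabs {x0 : E} {r : ℝ} (Γ : Fin 3 → Fin 3 → Fin 3 → E → ℝ) (S g : Fin 3 → Fin 3 → E → ℝ)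
    (s : Fin 3 → Fin 3 → E → ℝ) (hΓ : ∀ k a b, ContDiffOn ℝ ∞ (Γ k a b) (closedBall x0 r))
    (hS : ∀ a b, ContDiffOn ℝ ∞ (S a b) (closedBall x0 r))
    (hg : ∀ a b, ContDiffOn ℝ ∞ (g a b) (closedBall x0 r))
    (hs : ∀ a b, ContDiffOn ℝ ∞ (s a b) (closedBall x0 r))
    (hg0 : ∀ x ∈ closedBall x0 r, 0 < g 0 0 x)
    (w ρ : ℕ → E → ℝ) (hw : ∀ n, ContDiffOn ℝ ∞ (w n) (ball x0 r))
    (hρ : ∀ n, ContDiffOn ℝ ∞ (ρ n) (ball x0 r)) (W : E → ℝ)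
    (hlim : TendstoUniformlyOn w W atTop (ball x0 r)) (A : ℝ)
    (hi : ∀ n, IntegrableOn (fun x => ‖fderiv ℝ (w n) x‖ ^ 4) (ball x0 r))
    (hA : ∀ n, ∫ x in ball x0 r, ‖fderiv ℝ (w n) x‖ ^ 4 ≤ A)
    (ε : ℕ → ℝ) (hε : Tendsto ε atTop (𝓝 0))
    (h1 : ∀ n φ, Tst (ball x0 r) φ → ∀ K, (∀ x, |φ x| ≤ K) → (∀ x, ‖fderiv ℝ φ x‖ ≤ K) → ∀ a b,
      |∫ x, (pd a (pd b (w n)) x - ∑ k, Γ k a b x * pd k (w n) x + w n x * S a b x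
        - ρ n x * g a b x) * φ x| ≤ ε n * K)
    (h2 : ∀ φ, Tst (ball x0 r) φ → ∀ b, Tendsto (fun n => ∫ x, (pd b (ρ n) x
      + ∑ c, s b c x * pd c (w n) x) * φ x) atTop (𝓝 0)) :
    ContDiffOn ℝ ∞ W (ball x0 r) ∧ ∃ P : E → ℝ, ContDiffOn ℝ ∞ P (ball x0 r) ∧
      ∀ x ∈ ball x0 r, (∀ a b, pd a (pd b W) x =
        ∑ k, Γ k a b x * pd k W x - W x * S a b x + P x * g a b x) ∧
        ∀ b, pd b P x = - ∑ c, s b c x * pd c W x := by sorry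

end YR
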