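import Pool.Agent.Work.MP_71b0e8_gt.DefsA
import Pool.Agent.Work.MP_71b0e8_gt.Skel.RegAbs

/-! MP_71b0e8_gt, module Reg. -/

open scoped ContDiff Topology
open MeasureTheory Metric Set Filter

noncomputable section

namespace YR


/-- (REG) weak limits of almost solutions of `T(w) = 0` are smooth solutions -/
theorem reg {U : Set E} {G : E → Mat} (hG : LM U G) {x0 : E} {r : ℝ} (hr : 0 < r)
    (hU : closedBall x0 r ⊆ U) (w : ℕ → E → ℝ) (hw : ∀ n, ContDiffOn ℝ ∞ (w n) U) (W : E → ℝ)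
    (hlim : TendstoUniformlyOn w W atTop (closedBall x0 r)) (A : ℝ)
    (hA : ∀ n, ∫ x in ball x0 r, ‖fderiv ℝ (w n) x‖ ^ 4 ≤ A)
    (ε : ℕ → ℝ) (hε : Tendsto ε atTop (𝓝 0))
    (hT : ∀ n φ, Tst (ball x0 r) φ → ∀ K, (∀ x, |φ x| ≤ K) → (∀ x, ‖fderiv ℝ φ x‖ ≤ K) →
      ∀ a b, |∫ x, TT G (w n) a b x * φ x| ≤ ε n * K) :
    ContDiffOn ℝ ∞ W (ball x0 r) ∧ ∀ x ∈ ball x0 r, ∀ a b, TT G W a b x = 0 := by sorry

end YR
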