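import Pool.Agent.Work.MP_71b0e8_gt.DefsA

/-! MP_71b0e8_gt, module MaxP. -/

open scoped ContDiff Topology
open MeasureTheory Metric Set Filter

noncomputable section

namespace YR

variable {M : Type*} [TopologicalSpace M] [CompactSpace M] [T2Space M] [ConnectedSpace M]
  {𝒜 : Atl M} (𝒢 : Met 𝒜)

/-- (MAXP) -/
theorem lap_nonpos_of_max {u : M → ℝ} (hu : 𝒜.Sm u) {p : M} (hp : ∀ q, u q ≤ u p) :
    𝒢.lap u p ≤ 0 := by sorry

/-- (MAXP) -/
theorem UB_neg {r lam : ℝ} (hr : 0 < r) (hlam : 0 ≤ lam) (hR : ∀ p, r ≤ 𝒢.scal p) :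
    UB 𝒢 (-lam) (1 / (lam + r)) := by sorry

end YR
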