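import Pool.Agent.Work.MP_71b0e8_gt.Defs

/-! Skeleton: partial derivatives, smoothness, symmetries. `hG : LM U G` throughout. -/

open scoped ContDiff Topology
open MeasureTheory Metric Set Filter

noncomputable section

namespace YR

/-! ### LOC0 : partial derivatives -/

theorem pd_congr {a : Fin 3} {f g : E → ℝ} {x : E} (h : f =ᶠ[𝓝 x] g) : pd a f x = pd a g x := by
  sorry

theorem pd_add {a : Fin 3} {f g : E → ℝ} {x : E} (hf : DifferentiableAt ℝ f x)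
    (hg : DifferentiableAt ℝ g x) : pd a (fun y => f y + g y) x = pd a f x + pd a g x := by sorry

theorem pd_sub {a : Fin 3} {f g : E → ℝ} {x : E} (hf : DifferentiableAt ℝ f x)
    (hg : DifferentiableAt ℝ g x) : pd a (fun y => f y - g y) x = pd a f x - pd a g x := by sorry

theorem pd_neg {a : Fin 3} {f : E → ℝ} {x : E} : pd a (fun y => -f y) x = -pd a f x := by sorry

theorem pd_mul {a : Fin 3} {f g : E → ℝ} {x : E} (hf : DifferentiableAt ℝ f x)
    (hg : DifferentiableAt ℝ g x) :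
    pd a (fun y => f y * g y) x = pd a f x * g x + f x * pd a g x := by sorry

theorem pd_const {a : Fin 3} {c : ℝ} {x : E} : pd a (fun _ => c) x = 0 := by sorry

theorem pd_sum {ι : Type*} {s : Finset ι} {a : Fin 3} {f : ι → E → ℝ} {x : E}
    (hf : ∀ i ∈ s, DifferentiableAt ℝ (f i) x) :
    pd a (fun y => ∑ i ∈ s, f i y) x = ∑ i ∈ s, pd a (f i) x := by sorry

theorem pd_comp {a : Fin 3} {F : ℝ → ℝ} {F' : ℝ} {f : E → ℝ} {x : E}
    (hF : HasDerivAt F F' (f x)) (hf : DifferentiableAt ℝ f x) :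
    pd a (fun y => F (f y)) x = F' * pd a f x := by sorry

/-- second derivatives commute -/
theorem pd_comm {a b : Fin 3} {f : E → ℝ} {U : Set E} (hU : IsOpen U) (hf : ContDiffOn ℝ ∞ f U)
    {x : E} (hx : x ∈ U) : pd a (pd b f) x = pd b (pd a f) x := by sorry

theorem pd_smooth {a : Fin 3} {f : E → ℝ} {U : Set E} (hU : IsOpen U)
    (hf : ContDiffOn ℝ ∞ f U) : ContDiffOn ℝ ∞ (pd a f) U := by sorry

theorem fderiv_eq_sum {f : E → ℝ} {x : E} (v : E) :
    fderiv ℝ f x v = ∑ a, v a * pd a f x := by sorry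

theorem LM.mono {U V : Set E} {G : E → Mat} (hG : LM U G) (hV : IsOpen V) (h : V ⊆ U) :
    LM V G := by sorry

/-! ### dependence on germs only -/

theorem pd_congr_ev {a : Fin 3} {f g : E → ℝ} {x : E} (h : f =ᶠ[𝓝 x] g) :
    pd a f =ᶠ[𝓝 x] pd a g := by sorry

theorem chr_congr {G H : E → Mat} {x : E} (h : G =ᶠ[𝓝 x] H) (k a b : Fin 3) :
    chr G k a b =ᶠ[𝓝 x] chr H k a b := by sorry

theorem hess_congr {G H : E → Mat} {u v : E → ℝ} {x : E} (h : G =ᶠ[𝓝 x] H) (hu : u =ᶠ[𝓝 x] v)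
    (a b : Fin 3) : hess G u a b =ᶠ[𝓝 x] hess H v a b := by sorry

theorem ric_congr {G H : E → Mat} {x : E} (h : G =ᶠ[𝓝 x] H) (a b : Fin 3) :
    ric G a b =ᶠ[𝓝 x] ric H a b := by sorry

theorem scal_congr {G H : E → Mat} {x : E} (h : G =ᶠ[𝓝 x] H) : scal G =ᶠ[𝓝 x] scal H := by
  sorry

theorem sig2_congr {G H : E → Mat} {x : E} (h : G =ᶠ[𝓝 x] H) : sig2 G =ᶠ[𝓝 x] sig2 H := by
  sorry

theorem inn_congr {G H : E → Mat} {u v u' v' : E → ℝ} {x : E} (h : G =ᶠ[𝓝 x] H)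
    (hu : u =ᶠ[𝓝 x] u') (hv : v =ᶠ[𝓝 x] v') : inn G u v =ᶠ[𝓝 x] inn H u' v' := by sorry

theorem lap_congr {G H : E → Mat} {u v : E → ℝ} {x : E} (h : G =ᶠ[𝓝 x] H) (hu : u =ᶠ[𝓝 x] v) :
    lap G u =ᶠ[𝓝 x] lap H v := by sorry

theorem TT_congr {G H : E → Mat} {u v : E → ℝ} {x : E} (h : G =ᶠ[𝓝 x] H) (hu : u =ᶠ[𝓝 x] v)
    (a b : Fin 3) : TT G u a b =ᶠ[𝓝 x] TT H v a b := by sorry

section

variable {U : Set E} {G : E → Mat} (hG : LM U G) {u v w f : E → ℝ} {x : E}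

include hG

/-! ### LOC1 : smoothness and symmetries -/

theorem det_pos (hx : x ∈ U) : 0 < (G x).det := by sorry

theorem det_smooth : ContDiffOn ℝ ∞ (fun x => (G x).det) U := by sorry

theorem gi_symm (hx : x ∈ U) (a b : Fin 3) : gi G x a b = gi G x b a := by sorry

theorem gi_mul (hx : x ∈ U) (a b : Fin 3) :
    ∑ c, gi G x a c * G x c b = if a = b then 1 else 0 := by sorry

theorem mul_gi (hx : x ∈ U) (a b : Fin 3) :
    ∑ c, G x a c * gi G x c b = if a = b then 1 else 0 := by sorry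

theorem gi_smooth (a b : Fin 3) : ContDiffOn ℝ ∞ (fun x => gi G x a b) U := by sorry

theorem chr_symm (hx : x ∈ U) (k a b : Fin 3) : chr G k a b x = chr G k b a x := by sorry

theorem chr_smooth (k a b : Fin 3) : ContDiffOn ℝ ∞ (chr G k a b) U := by sorry

theorem ric_smooth (a b : Fin 3) : ContDiffOn ℝ ∞ (ric G a b) U := by sorry

theorem scal_smooth : ContDiffOn ℝ ∞ (scal G) U := by sorry

theorem sig2_smooth : ContDiffOn ℝ ∞ (sig2 G) U := by sorry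

theorem hess_smooth (hu : ContDiffOn ℝ ∞ u U) (a b : Fin 3) :
    ContDiffOn ℝ ∞ (hess G u a b) U := by sorry

theorem hess_symm (hu : ContDiffOn ℝ ∞ u U) (hx : x ∈ U) (a b : Fin 3) :
    hess G u a b x = hess G u b a x := by sorry

theorem inn_smooth (hu : ContDiffOn ℝ ∞ u U) (hv : ContDiffOn ℝ ∞ v U) :
    ContDiffOn ℝ ∞ (inn G u v) U := by sorry

theorem lap_smooth (hu : ContDiffOn ℝ ∞ u U) : ContDiffOn ℝ ∞ (lap G u) U := by sorry

theorem ev_smooth {h : Fin 3 → Fin 3 → E → ℝ} (hh : ∀ a b, ContDiffOn ℝ ∞ (h a b) U)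
    (hu : ContDiffOn ℝ ∞ u U) (hv : ContDiffOn ℝ ∞ v U) :
    ContDiffOn ℝ ∞ (fun x => ev G (fun a b => h a b x) u v x) U := by sorry

theorem ip_smooth {h k : Fin 3 → Fin 3 → E → ℝ} (hh : ∀ a b, ContDiffOn ℝ ∞ (h a b) U)
    (hk : ∀ a b, ContDiffOn ℝ ∞ (k a b) U) :
    ContDiffOn ℝ ∞ (fun x => ip G (fun a b => h a b x) (fun a b => k a b x) x) U := by sorry

theorem rho_smooth (hu : ContDiffOn ℝ ∞ u U) : ContDiffOn ℝ ∞ (rho G u) U := by sorry

theorem TT_smooth (hu : ContDiffOn ℝ ∞ u U) (a b : Fin 3) : ContDiffOn ℝ ∞ (TT G u a b) U := by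
  sorry

theorem qq_smooth (hu : ContDiffOn ℝ ∞ u U) (a b : Fin 3) : ContDiffOn ℝ ∞ (qq G u a b) U := by
  sorry

theorem ric0_smooth (a b : Fin 3) : ContDiffOn ℝ ∞ (ric0 G a b) U := by sorry

end

end YR
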