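import Pool.Agent.Work.MP_71b0e8_gt.Skel.Loc5

/-! Skeleton: the system for T. `hG : LM U G` throughout. -/

open scoped ContDiff Topology
open MeasureTheory Metric Set Filter

noncomputable section

namespace YR

section

variable {U : Set E} {G : E → Mat} (hG : LM U G) {u v w f : E → ℝ} {x : E}

include hG

/-! ### LOC6 : the system for `T` -/

theorem TT_symm (hu : ContDiffOn ℝ ∞ u U) (hx : x ∈ U) (a b : Fin 3) :
    TT G u a b x = TT G u b a x := by sorry

theorem tr_TT (hu : ContDiffOn ℝ ∞ u U) (hx : x ∈ U) : tr G (fun a b => TT G u a b x) x = 0 := by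
  sorry

/-- `div T(w) = 2 (dρ(w) + S(dw))` -/
theorem div_TT (hw : ContDiffOn ℝ ∞ w U) (hx : x ∈ U) (b : Fin 3) :
    ∑ a, ∑ c, gi G x a c * (pd c (TT G w a b) x -
        ∑ k, (chr G k c a x * TT G w k b x + chr G k c b x * TT G w a k x)) =
      2 * (pd b (rho G w) x + ∑ a, sch G b a x * grad G w a x) := by sorry

/-- `dB(u,v)` -/
theorem pd_bb (hu : ContDiffOn ℝ ∞ u U) (hv : ContDiffOn ℝ ∞ v U) (hx : x ∈ U) (c : Fin 3) :
    pd c (bb G u v) x =
      v x * (pd c (rho G u) x + ∑ a, sch G c a x * grad G u a x) +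
      u x * (pd c (rho G v) x + ∑ a, sch G c a x * grad G v a x) -
      ∑ a, TT G u c a x * grad G v a x - ∑ a, TT G v c a x * grad G u a x := by sorry

theorem TT_add (hu : ContDiffOn ℝ ∞ u U) (hv : ContDiffOn ℝ ∞ v U) (hx : x ∈ U) (a b : Fin 3) :
    TT G (fun y => u y + v y) a b x = TT G u a b x + TT G v a b x := by sorry

theorem TT_const_mul (hu : ContDiffOn ℝ ∞ u U) (hx : x ∈ U) (c : ℝ) (a b : Fin 3) :
    TT G (fun y => c * u y) a b x = c * TT G u a b x := by sorry

end

end YR
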