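import Pool.Agent.Work.MP_71b0e8_gt.Skel.Glob2
import Pool.Agent.Work.MP_71b0e8_gt.Skel.Int

/-!
Skeleton GLOB3: more rules (requested by helper12): norm rules for `T`, `⟨T(w), Hess u⟩`,
integration by parts for `T`, smoothness at a point.
-/

open scoped ContDiff Topology
open MeasureTheory Metric Set Filter

noncomputable section

namespace YR

variable {M : Type*} [TopologicalSpace M] {𝒜 : Atl M} {U V : Set M}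
  {u v w f k : M → ℝ} {p : M}

/-! ### GLOB3a : smoothness at a point -/

/-- smooth near `p` -/
def Atl.SmAt (𝒜 : Atl M) (u : M → ℝ) (p : M) : Prop := ∃ U, IsOpen U ∧ p ∈ U ∧ 𝒜.SmOn U u

theorem Atl.SmOn.at (h : 𝒜.SmOn U u) (hU : IsOpen U) (hp : p ∈ U) : 𝒜.SmAt u p := by sorry

theorem Atl.Sm.at (h : 𝒜.Sm u) (p : M) : 𝒜.SmAt u p := by sorry

theorem Atl.smOn_iff_smAt (hU : IsOpen U) : 𝒜.SmOn U u ↔ ∀ p ∈ U, 𝒜.SmAt u p := by sorry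

theorem Atl.sm_iff_smAt : 𝒜.Sm u ↔ ∀ p, 𝒜.SmAt u p := by sorry

theorem Atl.SmAt.congr (h : 𝒜.SmAt u p) (huv : u =ᶠ[𝓝 p] v) : 𝒜.SmAt v p := by sorry

theorem Atl.SmAt.common (hu : 𝒜.SmAt u p) (hv : 𝒜.SmAt v p) :
    ∃ U, IsOpen U ∧ p ∈ U ∧ 𝒜.SmOn U u ∧ 𝒜.SmOn U v := by sorry

/-- smoothness at `p` in a chart around `p` -/
theorem Atl.smAt_iff (i : Fin 𝒜.n) {z : E} (hz : z ∈ ball (0 : E) 4) :
    𝒜.SmAt u ((𝒜.φ i).symm z) ↔ ∃ r > 0, ContDiffOn ℝ ∞ (𝒜.rd u i) (ball z r) := by sorry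

namespace Met

variable (𝒢 : Met 𝒜)

/-! ### GLOB3b : norm rules for `T` -/

theorem sqrt_t2_add (hU : IsOpen U) (hp : p ∈ U) (hu : 𝒜.SmOn U u) (hv : 𝒜.SmOn U v) :
    √(𝒢.t2 (fun q => u q + v q) p) ≤ √(𝒢.t2 u p) + √(𝒢.t2 v p) := by sorry

theorem sqrt_t2_mul (hU : IsOpen U) (hp : p ∈ U) (hu : 𝒜.SmOn U u) (hv : 𝒜.SmOn U v) :
    √(𝒢.t2 (fun q => u q * v q) p) ≤ |u p| * √(𝒢.t2 v p) + |v p| * √(𝒢.t2 u p) +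
      |u p * v p| * √(𝒢.e2 p) + 2 * √(𝒢.inn u u p) * √(𝒢.inn v v p) := by sorry

theorem sqrt_t2_comp (hU : IsOpen U) (hp : p ∈ U) (hu : 𝒜.SmOn U u) {F : ℝ → ℝ} {S : Set ℝ}
    (hS : IsOpen S) (hF : ContDiffOn ℝ ∞ F S) (hm : ∀ q ∈ U, u q ∈ S) :
    √(𝒢.t2 (fun q => F (u q)) p) ≤ |deriv F (u p)| * √(𝒢.t2 u p) +
      |F (u p) - u p * deriv F (u p)| * √(𝒢.e2 p) +
        |deriv (deriv F) (u p)| * 𝒢.inn u u p := by sorry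

theorem abs_Tv_le (w u v : M → ℝ) (p : M) :
    |𝒢.Tv w u v p| ≤ √(𝒢.t2 w p) * √(𝒢.inn u u p) * √(𝒢.inn v v p) := by sorry

theorem sqrt_h2_add (hU : IsOpen U) (hp : p ∈ U) (hu : 𝒜.SmOn U u) (hv : 𝒜.SmOn U v) :
    √(𝒢.h2 (fun q => u q + v q) p) ≤ √(𝒢.h2 u p) + √(𝒢.h2 v p) := by sorry

theorem sqrt_h2_mul (hU : IsOpen U) (hp : p ∈ U) (hu : 𝒜.SmOn U u) (hv : 𝒜.SmOn U v) :
    √(𝒢.h2 (fun q => u q * v q) p) ≤ |u p| * √(𝒢.h2 v p) + |v p| * √(𝒢.h2 u p) +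
      2 * √(𝒢.inn u u p) * √(𝒢.inn v v p) := by sorry

theorem sqrt_inn_add (hU : IsOpen U) (hp : p ∈ U) (hu : 𝒜.SmOn U u) (hv : 𝒜.SmOn U v) :
    √(𝒢.inn (fun q => u q + v q) (fun q => u q + v q) p) ≤
      √(𝒢.inn u u p) + √(𝒢.inn v v p) := by sorry

/-- `T(w) = 0` in every chart -/
theorem t2_eq_zero_iff (hU : IsOpen U) (hw : 𝒜.SmOn U w) (i : Fin 𝒜.n) {z : E}
    (hz : z ∈ 𝒜.dom U i) :
    𝒢.t2 w ((𝒜.φ i).symm z) = 0 ↔ ∀ a b, YR.TT (𝒢.g i) (𝒜.rd w i) a b z = 0 := by sorry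

theorem e2_eq_zero_iff (i : Fin 𝒜.n) {z : E} (hz : z ∈ ball (0 : E) 4) :
    𝒢.e2 ((𝒜.φ i).symm z) = 0 ↔ ∀ a b, YR.ric0 (𝒢.g i) a b z = 0 := by sorry

/-- `|du|² = 0` iff all partial derivatives vanish -/
theorem inn_eq_zero_iff (hU : IsOpen U) (hu : 𝒜.SmOn U u) (i : Fin 𝒜.n) {z : E}
    (hz : z ∈ 𝒜.dom U i) :
    𝒢.inn u u ((𝒜.φ i).symm z) = 0 ↔ ∀ a, YR.pd a (𝒜.rd u i) z = 0 := by sorry

/-! ### GLOB3c : `⟨T(w), Hess u⟩` -/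

/-- `⟨T(w), Hess u⟩` -/
def th (w u : M → ℝ) : M → ℝ := 𝒜.glob fun i z =>
  YR.ip (𝒢.g i) (fun a b => YR.TT (𝒢.g i) (𝒜.rd w i) a b z)
    (fun a b => YR.hess (𝒢.g i) (𝒜.rd u i) a b z) z

theorem th_chart (hU : IsOpen U) (hw : 𝒜.SmOn U w) (hu : 𝒜.SmOn U u) (i : Fin 𝒜.n) {z : E}
    (hz : z ∈ 𝒜.dom U i) : 𝒢.th w u ((𝒜.φ i).symm z) =
      YR.ip (𝒢.g i) (fun a b => YR.TT (𝒢.g i) (𝒜.rd w i) a b z)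
        (fun a b => YR.hess (𝒢.g i) (𝒜.rd u i) a b z) z := by sorry

theorem SmOn_th (hU : IsOpen U) (hw : 𝒜.SmOn U w) (hu : 𝒜.SmOn U u) : 𝒜.SmOn U (𝒢.th w u) := by
  sorry

theorem Sm_th (hw : 𝒜.Sm w) (hu : 𝒜.Sm u) : 𝒜.Sm (𝒢.th w u) := by sorry

/-- `⟨T(w), Hess w⟩ = |T(w)|² - w ⟨T(w), Ric⁰⟩`, and `⟨T(w),Ric⁰⟩ = eh w + w e2` -/
theorem th_self (w : M → ℝ) (p : M) :
    𝒢.th w w p = 𝒢.t2 w p - w p * (𝒢.eh w p + w p * 𝒢.e2 p) := by sorry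

theorem th_eq (w u : M → ℝ) (p : M) : |𝒢.th w u p| ≤ √(𝒢.t2 w p) * √(𝒢.h2 u p) := by sorry

section

variable [T2Space M] [CompactSpace M] [MeasurableSpace M] [BorelSpace M]

/-- `div T(w) = 2 (dρ(w) + S dw)` -/
theorem integral_th (hf : 𝒜.Sm f) (hw : 𝒜.Sm w) (hu : 𝒜.Sm u) :
    ∫ p, f p * 𝒢.th w u p ∂𝒢.vol = -∫ p, (𝒢.Tv w f u p +
      2 * f p * (𝒢.inn (𝒢.rho w) u p + 𝒢.Sv w u p)) ∂𝒢.vol := by sorry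

theorem integral_bochner' (hf : 𝒜.Sm f) (hu : 𝒜.Sm u) :
    ∫ p, f p * (𝒢.h2 u p - 𝒢.lap u p ^ 2 + 𝒢.ricv u u p) ∂𝒢.vol =
      -∫ p, (𝒢.hessv u u f p - 𝒢.lap u p * 𝒢.inn u f p) ∂𝒢.vol := by sorry

end

end Met

end YR
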