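import Pool.Agent.Work.MP_71b0e8_gt.Skel.Loc0

/-! Skeleton: algebra at a point. `hG : LM U G` throughout. -/

open scoped ContDiff Topology
open MeasureTheory Metric Set Filter

noncomputable section

namespace YR

section

variable {U : Set E} {G : E → Mat} (hG : LM U G) {u v w f : E → ℝ} {x : E}

include hG

/-! ### LOC2 : algebra at a point -/

theorem inn_symm (hx : x ∈ U) : inn G u v x = inn G v u x := by sorry

theorem inn_self_nonneg (hx : x ∈ U) : 0 ≤ inn G u u x := by sorry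

/-- `|∂_a u| ≤ √G_aa |du|` -/
theorem pd_sq_le (hx : x ∈ U) (a : Fin 3) : pd a u x ^ 2 ≤ G x a a * inn G u u x := by sorry

theorem inn_self_eq_zero (hx : x ∈ U) : inn G u u x = 0 ↔ ∀ a, pd a u x = 0 := by sorry

theorem inn_sq_le (hx : x ∈ U) : inn G u v x ^ 2 ≤ inn G u u x * inn G v v x := by sorry

theorem ip_self_nonneg (hx : x ∈ U) (h : Fin 3 → Fin 3 → ℝ) : 0 ≤ ip G h h x := by sorry

theorem ip_symm (hx : x ∈ U) (h k : Fin 3 → Fin 3 → ℝ) : ip G h k x = ip G k h x := by sorry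

theorem ip_self_eq_zero (hx : x ∈ U) (h : Fin 3 → Fin 3 → ℝ) (h0 : ip G h h x = 0) :
    ∀ a b, h a b = 0 := by sorry

theorem ip_sq_le (hx : x ∈ U) (h k : Fin 3 → Fin 3 → ℝ) :
    ip G h k x ^ 2 ≤ ip G h h x * ip G k k x := by sorry

theorem comp_sq_le (hx : x ∈ U) (h : Fin 3 → Fin 3 → ℝ) (a b : Fin 3) :
    h a b ^ 2 ≤ G x a a * G x b b * ip G h h x := by sorry

theorem ev_sq_le (hx : x ∈ U) (h : Fin 3 → Fin 3 → ℝ) :
    ev G h u v x ^ 2 ≤ ip G h h x * inn G u u x * inn G v v x := by sorry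

theorem tr_sq_le (hx : x ∈ U) (h : Fin 3 → Fin 3 → ℝ) : tr G h x ^ 2 ≤ 3 * ip G h h x := by
  sorry

theorem ip_metric (hx : x ∈ U) (h : Fin 3 → Fin 3 → ℝ) : ip G h (fun a b => G x a b) x =
    tr G h x := by sorry

theorem tr_metric (hx : x ∈ U) : tr G (fun a b => G x a b) x = 3 := by sorry

theorem ip_dd (hx : x ∈ U) (h : Fin 3 → Fin 3 → ℝ) :
    ip G h (fun a b => pd a u x * pd b v x) x = ev G h u v x := by sorry

/-- `h(∂_a, ∇u)` contracted with `dv` -/
theorem ev_eq_inn (hx : x ∈ U) (h : Fin 3 → Fin 3 → ℝ) :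
    ev G h u v x = ∑ a, grad G u a x * ∑ b, h a b * grad G v b x := by sorry

theorem inn_eq_grad (hx : x ∈ U) : inn G u v x = ∑ a, grad G u a x * pd a v x := by sorry

theorem pd_eq_grad (hx : x ∈ U) (a : Fin 3) : pd a u x = ∑ b, G x a b * grad G u b x := by sorry

end

end YR
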