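import Pool.Agent.Work.MP_71b0e8_gt.Skel.DR0

open scoped ContDiff Topology
open MeasureTheory Metric Set Filter

noncomputable section

namespace YR

/-! ### DRB : the quadratic form (compactness; `G` is Lipschitz on `closedBall 0 3`) -/

theorem qd_smul (G : E → Mat) (y z : E) (r : ℝ) : qd G y (r • z) = r ^ 2 * qd G y z := by sorry

theorem qd_bounds {G : E → Mat} (hG : LM (ball 0 4) G) : ∃ b : ℝ, 0 < b ∧ ∃ B : ℝ,
    ∀ y ∈ closedBall (0 : E) 3, ∀ z : E, b * ‖z‖ ^ 2 ≤ qd G y z ∧ qd G y z ≤ B * ‖z‖ ^ 2 := by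
  sorry

theorem det_bounds {G : E → Mat} (hG : LM (ball 0 4) G) : ∃ B : ℝ, ∀ y ∈ closedBall (0 : E) 3,
    √(G y).det ≤ B := by sorry

/-- `|ds|² = 4 g^{ab}(x) g_{ac}(y) g_{bd}(y) z^c z^d = 4 q + 4 g^{ab}(x)(g_{ac}(y) - g_{ac}(x)) …`,
`lap s = 2 g^{ab}(x) g_{ab}(y) - 2 g^{ab}(x) Γ^k_{ab}(x) g_{kc}(y) z^c` -/
theorem geo_bounds {G : E → Mat} (hG : LM (ball 0 4) G) : ∃ C : ℝ, 0 < C ∧
    ∀ x ∈ closedBall (0 : E) 3, ∀ y ∈ closedBall (0 : E) 2,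
      |inn G (fun x' => qd G y (x' - y)) (fun x' => qd G y (x' - y)) x - 4 * qd G y (x - y)| ≤
        C * ‖x - y‖ ^ 3 ∧
      |lap G (fun x' => qd G y (x' - y)) x - 6| ≤ C * ‖x - y‖ := by sorry

end YR
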