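import Pool.Agent.Work.MP_71b0e8_gt.Skel.DR0

open scoped ContDiff Topology
open MeasureTheory Metric Set Filter

noncomputable section

namespace YR

/-! ### DRC : radial integrals on `ℝ³` (`MeasureTheory.integral_fun_norm_addHaar`, scaling) -/

theorem exp_int : ∃ A : ℝ, 0 < A ∧ ∀ a : ℝ, 0 < a →
    Integrable (fun z : E => Real.exp (-a * ‖z‖) / ‖z‖ ^ 2) ∧
    ∫ z : E, Real.exp (-a * ‖z‖) / ‖z‖ ^ 2 ≤ A / a ∧
    Integrable (fun z : E => Real.exp (-a * ‖z‖) / ‖z‖) ∧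
    ∫ z : E, Real.exp (-a * ‖z‖) / ‖z‖ ≤ A / a ^ 2 := by sorry

theorem kap0_integrable : Integrable (fun v : E => 24 / √(‖v‖ ^ 2 + 1) ^ 5) := by sorry

theorem kap0_pos : 0 < kap0 := by sorry

/-- `∫ (|v|²_{G y} + 1)^{-5/2} dv · √det G(y) = κ₀` (linear change of variables) -/
theorem kap0_change {G : E → Mat} (hG : LM (ball 0 4) G) {y : E} (hy : y ∈ ball (0 : E) 4) :
    ∫ v : E, √(G y).det * (24 / √(qd G y v + 1) ^ 5) = kap0 := by sorry

end YR
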