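import Pool.Agent.Work.MP_71b0e8_gt.Skel.DR0

open scoped ContDiff Topology
open MeasureTheory Metric Set Filter

noncomputable section

namespace YR

/-! ### DRE : smoothness and derivatives of parametric integrals -/

theorem smooth_int {H : E → E → ℝ} (hH : ContDiff ℝ ∞ (fun p : E × E => H p.1 p.2)) :
    ContDiff ℝ ∞ (fun x => ∫ y in closedBall (0 : E) 2, H x y) := by sorry

theorem lap_int {G : E → Mat} (hG : LM (ball 0 4) G) {H : E → E → ℝ}
    (hH : ContDiff ℝ ∞ (fun p : E × E => H p.1 p.2)) {x : E} (hx : x ∈ ball (0 : E) 4) :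
    lap G (fun x => ∫ y in closedBall (0 : E) 2, H x y) x =
      ∫ y in closedBall (0 : E) 2, lap G (fun x' => H x' y) x := by sorry

/-- the kernel times a smooth function supported in `closedBall 0 2` is smooth in both variables -/
theorem kk_smooth {G : E → Mat} (hG : LM (ball 0 4) G) {P : ℝ → ℝ}
    (hP : ContDiffOn ℝ ∞ P (Ioi 0)) {δ : ℝ} (hδ : 0 < δ)
    {f : E → ℝ} (hf : ContDiff ℝ ∞ f) (hs : ∀ y, f y ≠ 0 → ‖y‖ ≤ 2) :
    ContDiff ℝ ∞ (fun p : E × E => kk G P δ p.1 p.2 * f p.2) := by sorry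

end YR
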