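import Pool.Agent.Work.MP_71b0e8_gt.DefsA

/-! MP_71b0e8_gt, module Ident1. -/

open scoped ContDiff Topology
open MeasureTheory Metric Set Filter

noncomputable section

namespace YR

variable {M : Type*} [TopologicalSpace M] [CompactSpace M] [T2Space M] [ConnectedSpace M]
  [MeasurableSpace M] [BorelSpace M] {𝒜 : Atl M} (𝒢 : Met 𝒜)

/-- (IDENT1) the main identity, for every smooth `f` -/
theorem ident1 {f : M → ℝ} (hf : 𝒜.Sm f) :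
    𝒢.S1 ^ 2 / (3 * 𝒢.V) - 𝒢.S2 =
      (1 / 2) * ∫ p, 𝒢.q2 f p ∂𝒢.vol
      - (1 / 3) * (∫ p, (𝒢.scal p / 4 - 𝒢.lap f p) ^ 2 ∂𝒢.vol
          - (∫ p, (𝒢.scal p / 4 - 𝒢.lap f p) ∂𝒢.vol) ^ 2 / 𝒢.V)
      + ∫ p, (𝒢.scal p / 16 + 5 / 12 * (𝒢.scal p / 4 - 𝒢.lap f p)) * 𝒢.inn f f p ∂𝒢.vol
      - (1 / 12) * ∫ p, 𝒢.inn f f p ^ 2 ∂𝒢.vol := by sorry

end YR
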