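import Pool.Agent.Work.MP_71b0e8_gt.DefsA
import Pool.Agent.Work.MP_71b0e8_gt.Skel.Ident1

/-! MP_71b0e8_gt, module Ineq2. -/

open scoped ContDiff Topology
open MeasureTheory Metric Set Filter

noncomputable section

namespace YR

variable {M : Type*} [TopologicalSpace M] [CompactSpace M] [T2Space M] [ConnectedSpace M]
  [MeasurableSpace M] [BorelSpace M] {𝒜 : Atl M} (𝒢 : Met 𝒜)

/-- (INEQ2) consequence for `f = 2 log w`, `w > 0`, `L w ≥ 0` -/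
theorem ineq2 (hR : ∀ p, 0 < 𝒢.scal p) {w : M → ℝ} (hw : 𝒜.Sm w) (hw0 : ∀ p, 0 < w p)
    (hL : ∀ p, 0 ≤ 𝒢.L w p) (c : ℝ) :
    (1 / 2) * ∫ p, 𝒢.q2 (fun q => 2 * Real.log (w q)) p ∂𝒢.vol
      + (1 / 24) * ∫ p, 𝒢.inn (fun q => 2 * Real.log (w q))
          (fun q => 2 * Real.log (w q)) p ^ 2 ∂𝒢.vol
      ≤ 𝒢.S1 ^ 2 / (3 * 𝒢.V) - 𝒢.S2
        + (1 / 3) * ∫ p, (𝒢.L w p / (4 * w p) - c) ^ 2 ∂𝒢.vol := by sorry

end YR
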