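import Pool.Agent.Work.MP_71b0e8_gt.DefsA

/-! MP_71b0e8_gt, module Step. -/

open scoped ContDiff Topology
open MeasureTheory Metric Set Filter

noncomputable section

namespace YR

variable {M : Type*} [TopologicalSpace M] [CompactSpace M] [T2Space M] [ConnectedSpace M]
  {𝒜 : Atl M} (𝒢 : Met 𝒜)

/-- (STEP) -/
theorem UB_step {μ K δ : ℝ} (hK : 0 < K) (hδ : 0 ≤ δ) (hδK : δ * K < 1) (h : UB 𝒢 μ K) :
    UB 𝒢 (μ + δ) (K / (1 - δ * K)) := by sorry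

/-- (STEP) -/
theorem DR_step {μ K δ : ℝ} (hK : 0 < K) (hδ : 0 ≤ δ) (hδK : δ * K < 1) (h : UB 𝒢 μ K)
    (hD : DR 𝒢 μ) : DR 𝒢 (μ + δ) := by sorry

end YR
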