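import Pool.Agent.Work.MP_71b0e8_gt.DefsA
import Pool.Agent.Work.MP_71b0e8_gt.Skel.MaxP
import Pool.Agent.Work.MP_71b0e8_gt.Skel.Step

/-! MP_71b0e8_gt, module NearEig. -/

open scoped ContDiff Topology
open MeasureTheory Metric Set Filter

noncomputable section

namespace YR

variable {M : Type*} [TopologicalSpace M] [CompactSpace M] [T2Space M] [ConnectedSpace M]
  {𝒜 : Atl M} (𝒢 : Met 𝒜)

/-- (STEP) approach to the principal eigenvalue: for every `K` there is a smooth function `w`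
with `max w = 1`, `0 < τ₀ ≤ L w - μ w ≤ 3 τ₀ ≤ 12 / K` -/
theorem exists_near_eig (hR : ∀ p, 0 < 𝒢.scal p) (hD : DR 𝒢 0) {K : ℝ} (hK : 0 < K) :
    ∃ (w : M → ℝ) (μ τ : ℝ), 𝒜.Sm w ∧ (∀ p, 0 < w p) ∧ (∀ p, w p ≤ 1) ∧ (∃ p, w p = 1) ∧
      0 ≤ μ ∧ 0 < τ ∧ τ ≤ 4 / K ∧ (∀ p, τ ≤ 𝒢.L w p - μ * w p) ∧
      ∀ p, 𝒢.L w p - μ * w p ≤ 3 * τ := by sorry

end YR
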