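import Pool.Agent.Work.MP_71b0e8_gt.DefsA

/-! MP_71b0e8_gt, module Mor. -/

open scoped ContDiff Topology
open MeasureTheory Metric Set Filter

noncomputable section

namespace YR


/-- (MORREY) Morrey's inequality in `ℝ³`, exponent 4 -/
theorem morrey : ∃ C : ℝ, 0 ≤ C ∧ ∀ (c : E) (r : ℝ) (f : E → ℝ), 0 < r →
    ContDiffOn ℝ 1 f (ball c r) →
    IntegrableOn (fun x => ‖fderiv ℝ f x‖ ^ 4) (ball c r) →
    ∀ x ∈ ball c (r / 3), ∀ y ∈ ball c (r / 3),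
      (f x - f y) ^ 4 ≤ C * ‖x - y‖ * ∫ z in ball c r, ‖fderiv ℝ f z‖ ^ 4 := by sorry

end YR
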