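import Pool.Agent.Work.MP_71b0e8_gt.DefsA
import Pool.Agent.Work.MP_71b0e8_gt.Skel.Mor

/-! MP_71b0e8_gt, module Osc. -/

open scoped ContDiff Topology
open MeasureTheory Metric Set Filter

noncomputable section

namespace YR

variable {M : Type*} [TopologicalSpace M] [CompactSpace M] [T2Space M] [ConnectedSpace M]
  [MeasurableSpace M] [BorelSpace M] {𝒜 : Atl M} (𝒢 : Met 𝒜)

/-- (OSC) Morrey on `M` -/
theorem osc_bound : ∃ C : ℝ, ∀ u : M → ℝ, 𝒜.Sm u → ∀ p q,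
    (u p - u q) ^ 4 ≤ C * ∫ p, 𝒢.inn u u p ^ 2 ∂𝒢.vol := by sorry

/-- (OSC) Morrey in the charts -/
theorem equicont : ∃ C : ℝ, ∀ u : M → ℝ, 𝒜.Sm u → ∀ i : Fin 𝒜.n,
    ∀ x ∈ closedBall (0 : E) 2, ∀ y ∈ closedBall (0 : E) 2,
    (𝒜.rd u i x - 𝒜.rd u i y) ^ 4 ≤ C * ‖x - y‖ * ∫ p, 𝒢.inn u u p ^ 2 ∂𝒢.vol := by sorry

end YR
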