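import Pool.Agent.Work.MP_71b0e8_gt.Defs

/-!
Skeleton GLOB0: smooth functions on `M` with respect to an atlas `𝒜 : Atl M`.
-/

open scoped ContDiff Topology
open MeasureTheory Metric Set Filter

noncomputable section

namespace YR

variable {M : Type*} [TopologicalSpace M] {𝒜 : Atl M} {U V : Set M} {u v : M → ℝ} {p : M}

/-! ### GLOB0a : charts -/

/-- the part of the chart `i` over `U` -/
def Atl.dom (𝒜 : Atl M) (U : Set M) (i : Fin 𝒜.n) : Set E := {z ∈ ball (0 : E) 4 | (𝒜.φ i).symm z ∈ U}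

theorem Atl.isOpen_dom (hU : IsOpen U) (i : Fin 𝒜.n) : IsOpen (𝒜.dom U i) := by sorry

theorem Atl.symm_mem (i : Fin 𝒜.n) {z : E} (hz : z ∈ ball (0 : E) 4) :
    (𝒜.φ i).symm z ∈ (𝒜.φ i).source := by sorry

theorem Atl.right_inv (i : Fin 𝒜.n) {z : E} (hz : z ∈ ball (0 : E) 4) :
    𝒜.φ i ((𝒜.φ i).symm z) = z := by sorry

theorem Atl.map_mem (i : Fin 𝒜.n) (hp : p ∈ (𝒜.φ i).source) : 𝒜.φ i p ∈ ball (0 : E) 4 := by sorry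

theorem Atl.idx_source (p : M) : p ∈ (𝒜.φ (𝒜.idx p)).source := by sorry

theorem Atl.idx_ball (p : M) : 𝒜.φ (𝒜.idx p) p ∈ ball (0 : E) 1 := by sorry

theorem Atl.glob_eq {F : Fin 𝒜.n → E → ℝ} (i : Fin 𝒜.n) {z : E} (hz : z ∈ ball (0 : E) 4)
    (h : ∀ j, (𝒜.φ i).symm z ∈ (𝒜.φ j).source → F i z = F j (𝒜.tr i j z)) :
    𝒜.glob F ((𝒜.φ i).symm z) = F i z := by sorry

theorem Atl.rd_tr (i j : Fin 𝒜.n) {z : E} (hj : (𝒜.φ i).symm z ∈ (𝒜.φ j).source) (u : M → ℝ) :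
    𝒜.rd u j (𝒜.tr i j z) = 𝒜.rd u i z := by sorry

/-- a point of `U`, in a chart -/
theorem Atl.exists_chart (p : M) : ∃ i, ∃ z ∈ ball (0 : E) 1, (𝒜.φ i).symm z = p := by sorry

/-! ### GLOB0b : algebra of smooth functions -/

theorem Atl.smOn_univ : 𝒜.SmOn univ u ↔ 𝒜.Sm u := by sorry

theorem Atl.Sm.on (h : 𝒜.Sm u) (U : Set M) : 𝒜.SmOn U u := by sorry

theorem Atl.SmOn.mono (h : 𝒜.SmOn U u) (hV : V ⊆ U) : 𝒜.SmOn V u := by sorry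

theorem Atl.SmOn.congr (h : 𝒜.SmOn U u) (huv : EqOn u v U) : 𝒜.SmOn U v := by sorry

/-- smoothness is local -/
theorem Atl.smOn_of_local (h : ∀ p ∈ U, ∃ V, IsOpen V ∧ p ∈ V ∧ 𝒜.SmOn V u) : 𝒜.SmOn U u := by
  sorry

/-- smoothness can be tested in one chart -/
theorem Atl.smOn_of_chart (i : Fin 𝒜.n) (hU : IsOpen U) (h : U ⊆ (𝒜.φ i).source)
    (hu : ContDiffOn ℝ ∞ (𝒜.rd u i) (𝒜.dom U i)) : 𝒜.SmOn U u := by sorry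

theorem Atl.SmOn.continuousOn (h : 𝒜.SmOn U u) (hU : IsOpen U) : ContinuousOn u U := by sorry

theorem Atl.Sm.continuous (h : 𝒜.Sm u) : Continuous u := by sorry

theorem Atl.SmOn.const (c : ℝ) : 𝒜.SmOn U fun _ => c := by sorry

theorem Atl.SmOn.add (hu : 𝒜.SmOn U u) (hv : 𝒜.SmOn U v) : 𝒜.SmOn U fun p => u p + v p := by sorry

theorem Atl.SmOn.sub (hu : 𝒜.SmOn U u) (hv : 𝒜.SmOn U v) : 𝒜.SmOn U fun p => u p - v p := by sorry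

theorem Atl.SmOn.neg (hu : 𝒜.SmOn U u) : 𝒜.SmOn U fun p => -u p := by sorry

theorem Atl.SmOn.mul (hu : 𝒜.SmOn U u) (hv : 𝒜.SmOn U v) : 𝒜.SmOn U fun p => u p * v p := by sorry

theorem Atl.SmOn.pow (hu : 𝒜.SmOn U u) (n : ℕ) : 𝒜.SmOn U fun p => u p ^ n := by sorry

theorem Atl.SmOn.sum {ι : Type*} {s : Finset ι} {f : ι → M → ℝ} (h : ∀ i ∈ s, 𝒜.SmOn U (f i)) :
    𝒜.SmOn U fun p => ∑ i ∈ s, f i p := by sorry

theorem Atl.SmOn.comp {F : ℝ → ℝ} {S : Set ℝ} (hF : ContDiffOn ℝ ∞ F S) (hu : 𝒜.SmOn U u)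
    (hm : ∀ p ∈ U, u p ∈ S) : 𝒜.SmOn U fun p => F (u p) := by sorry

theorem Atl.SmOn.div (hu : 𝒜.SmOn U u) (hv : 𝒜.SmOn U v) (h0 : ∀ p ∈ U, v p ≠ 0) :
    𝒜.SmOn U fun p => u p / v p := by sorry

theorem Atl.SmOn.rpow (hu : 𝒜.SmOn U u) (h0 : ∀ p ∈ U, 0 < u p) (r : ℝ) :
    𝒜.SmOn U fun p => u p ^ r := by sorry

theorem Atl.SmOn.sqrt (hu : 𝒜.SmOn U u) (h0 : ∀ p ∈ U, 0 < u p) :
    𝒜.SmOn U fun p => √(u p) := by sorry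

theorem Atl.SmOn.log (hu : 𝒜.SmOn U u) (h0 : ∀ p ∈ U, 0 < u p) :
    𝒜.SmOn U fun p => Real.log (u p) := by sorry

theorem Atl.SmOn.exp (hu : 𝒜.SmOn U u) : 𝒜.SmOn U fun p => Real.exp (u p) := by sorry

theorem Atl.Sm.const (c : ℝ) : 𝒜.Sm fun _ => c := by sorry

theorem Atl.Sm.add (hu : 𝒜.Sm u) (hv : 𝒜.Sm v) : 𝒜.Sm fun p => u p + v p := by sorry

theorem Atl.Sm.sub (hu : 𝒜.Sm u) (hv : 𝒜.Sm v) : 𝒜.Sm fun p => u p - v p := by sorry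

theorem Atl.Sm.neg (hu : 𝒜.Sm u) : 𝒜.Sm fun p => -u p := by sorry

theorem Atl.Sm.mul (hu : 𝒜.Sm u) (hv : 𝒜.Sm v) : 𝒜.Sm fun p => u p * v p := by sorry

theorem Atl.Sm.pow (hu : 𝒜.Sm u) (n : ℕ) : 𝒜.Sm fun p => u p ^ n := by sorry

theorem Atl.Sm.sum {ι : Type*} {s : Finset ι} {f : ι → M → ℝ} (h : ∀ i ∈ s, 𝒜.Sm (f i)) :
    𝒜.Sm fun p => ∑ i ∈ s, f i p := by sorry

theorem Atl.Sm.comp {F : ℝ → ℝ} {S : Set ℝ} (hF : ContDiffOn ℝ ∞ F S) (hu : 𝒜.Sm u)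
    (hm : ∀ p, u p ∈ S) : 𝒜.Sm fun p => F (u p) := by sorry

theorem Atl.Sm.div (hu : 𝒜.Sm u) (hv : 𝒜.Sm v) (h0 : ∀ p, v p ≠ 0) :
    𝒜.Sm fun p => u p / v p := by sorry

theorem Atl.Sm.rpow (hu : 𝒜.Sm u) (h0 : ∀ p, 0 < u p) (r : ℝ) : 𝒜.Sm fun p => u p ^ r := by sorry

theorem Atl.Sm.log (hu : 𝒜.Sm u) (h0 : ∀ p, 0 < u p) : 𝒜.Sm fun p => Real.log (u p) := by sorry

theorem Atl.Sm.exp (hu : 𝒜.Sm u) : 𝒜.Sm fun p => Real.exp (u p) := by sorry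

/-- cut off: `χ u` is smooth on `M` if `u` is smooth on `U` and `supp χ ⊆ U` -/
theorem Atl.Sm.mul_on {χ : M → ℝ} (hχ : 𝒜.Sm χ) (hU : IsOpen U) (hs : tsupport χ ⊆ U)
    (hu : 𝒜.SmOn U u) : 𝒜.Sm fun p => χ p * u p := by sorry

/-! ### GLOB0c : functions supported in a chart, bump functions, partitions of unity -/

open Classical in
/-- the function on `M` given by `F` in the chart `i`, and `0` outside of the chart -/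
def Atl.ext (𝒜 : Atl M) (i : Fin 𝒜.n) (F : E → ℝ) (p : M) : ℝ :=
  if p ∈ (𝒜.φ i).source then F (𝒜.φ i p) else 0

theorem Atl.rd_ext (i : Fin 𝒜.n) (F : E → ℝ) {z : E} (hz : z ∈ ball (0 : E) 4) :
    𝒜.rd (𝒜.ext i F) i z = F z := by sorry

theorem Atl.sm_ext [T2Space M] (i : Fin 𝒜.n) {F : E → ℝ} (hF : ContDiff ℝ ∞ F)
    (hs : tsupport F ⊆ ball 0 4) : 𝒜.Sm (𝒜.ext i F) := by sorry

theorem Atl.tsupport_ext [T2Space M] (i : Fin 𝒜.n) {F : E → ℝ} (hs : tsupport F ⊆ ball 0 4) :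
    tsupport (𝒜.ext i F) = (𝒜.φ i).symm '' (tsupport F) := by sorry

/-- a smooth function supported in a chart comes from `E` -/
theorem Atl.Sm.exists_ext [T2Space M] [CompactSpace M] (hu : 𝒜.Sm u) (i : Fin 𝒜.n)
    (hs : tsupport u ⊆ (𝒜.φ i).source) :
    ∃ F : E → ℝ, ContDiff ℝ ∞ F ∧ HasCompactSupport F ∧ tsupport F ⊆ ball 0 4 ∧ u = 𝒜.ext i F := by
  sorry

theorem Atl.exists_bump [T2Space M] [CompactSpace M] {C : Set M} (hC : IsClosed C) (hU : IsOpen U)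
    (h : C ⊆ U) : ∃ χ : M → ℝ, 𝒜.Sm χ ∧ (∀ p, 0 ≤ χ p) ∧ (∀ p, χ p ≤ 1) ∧ tsupport χ ⊆ U ∧
      ∃ W, IsOpen W ∧ C ⊆ W ∧ ∀ p ∈ W, χ p = 1 := by sorry

/-- partition of unity, `supp F i ⊆ ball 0 2` -/
theorem Atl.exists_pou [T2Space M] [CompactSpace M] (𝒜 : Atl M) : ∃ F : Fin 𝒜.n → E → ℝ,
    (∀ i, ContDiff ℝ ∞ (F i)) ∧ (∀ i, HasCompactSupport (F i)) ∧ (∀ i, tsupport (F i) ⊆ ball 0 2) ∧
      (∀ i z, 0 ≤ F i z) ∧ ∀ p, ∑ i, 𝒜.ext i (F i) p = 1 := by sorry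

/-- adapted to two open sets -/
theorem Atl.exists_split [T2Space M] [CompactSpace M] (𝒜 : Atl M) (hU : IsOpen U) (hV : IsOpen V)
    (h : U ∪ V = univ) : ∃ χ : M → ℝ, 𝒜.Sm χ ∧ (∀ p, 0 ≤ χ p) ∧ (∀ p, χ p ≤ 1) ∧
      tsupport χ ⊆ U ∧ tsupport (fun p => 1 - χ p) ⊆ V := by sorry

end YR
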