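import Pool.Agent.Work.MP_71b0e8_gt.Skel.DRF
import Pool.Agent.Work.MP_71b0e8_gt.Skel.Glob2

/-! Skeleton DR: patching and iteration. -/

open scoped ContDiff Topology
open MeasureTheory Metric Set Filter

noncomputable section

namespace YR

variable {M : Type*} [TopologicalSpace M] {𝒜 : Atl M} (𝒢 : Met 𝒜)

/-- patching of local parametrices (`Atl.exists_pou`, `param`) -/
theorem patch [T2Space M] [CompactSpace M] : ∃ lam0 : ℝ, 0 < lam0 ∧ ∀ lam : ℝ, lam0 ≤ lam →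
    ∀ f : M → ℝ, 𝒜.Sm f → ∀ m : ℝ, (∀ p, |f p| ≤ m) →
      ∃ κ : M → ℝ, 𝒜.Sm κ ∧ ∀ p, |𝒢.L κ p + lam * κ p - f p| ≤ m / 2 := by sorry

/-- iteration of `patch` -/
theorem DR_neg [T2Space M] [CompactSpace M] : ∃ lam0 : ℝ, 0 < lam0 ∧ ∀ lam : ℝ, lam0 ≤ lam →
    DR 𝒢 (-lam) := by sorry

end YR
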