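import Pool.Agent.Work.MP_71b0e8_gt.DefsA
import Pool.Agent.Work.MP_71b0e8_gt.Skel.Ident3

/-! MP_71b0e8_gt, module Apriori. -/

open scoped ContDiff Topology
open MeasureTheory Metric Set Filter

noncomputable section

namespace YR

variable {M : Type*} [TopologicalSpace M] [CompactSpace M] [T2Space M] [ConnectedSpace M]
  [MeasurableSpace M] [BorelSpace M] {𝒜 : Atl M} (𝒢 : Met 𝒜)

/-- (APRIORI) the a priori bound -/
theorem apriori (hR : ∀ p, 0 < 𝒢.scal p) : ∃ C : ℝ, 0 ≤ C ∧ ∀ (v : M → ℝ) (_ : 𝒜.Sm v)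
    (_ : ∀ p, 0 < v p) (hw : 𝒜.Sm (fun p => v p ^ 4)) (hp : ∀ p, 0 < v p ^ 4),
    (∀ p, 0 < (𝒢.conf (fun p => v p ^ 4) hw hp).scal p) →
    (𝒢.conf (fun p => v p ^ 4) hw hp).S2 + ∫ p, 𝒢.inn v v p ^ 2 ∂𝒢.vol
      ≤ C * ∫ p, v p ^ 4 ∂𝒢.vol := by sorry

end YR
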