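import Pool.Agent.Work.MP_71b0e8_gt.DefsA
import Pool.Agent.Work.MP_71b0e8_gt.Skel.NearEig
import Pool.Agent.Work.MP_71b0e8_gt.Skel.Osc
import Pool.Agent.Work.MP_71b0e8_gt.Skel.Ineq2

/-! MP_71b0e8_gt, module Eig. -/

open scoped ContDiff Topology
open MeasureTheory Metric Set Filter

noncomputable section

namespace YR

variable {M : Type*} [TopologicalSpace M] [CompactSpace M] [T2Space M] [ConnectedSpace M]
  [MeasurableSpace M] [BorelSpace M] {𝒜 : Atl M} (𝒢 : Met 𝒜)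

/-- (EIG) approximate principal eigenfunction -/
theorem exists_eig (hR : ∀ p, 0 < 𝒢.scal p) (hD : DR 𝒢 0) {ε : ℝ} (hε : 0 < ε) :
    ∃ (w : M → ℝ) (μ : ℝ), 𝒜.Sm w ∧ (∀ p, 0 < w p) ∧ (∀ p, 0 ≤ 𝒢.L w p) ∧
      ∀ p, |𝒢.L w p / w p - μ| ≤ ε := by sorry

end YR
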