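import Pool.Agent.Work.MP_71b0e8_gt.DefsA
import Pool.Agent.Work.MP_71b0e8_gt.Skel.Osc

/-! MP_71b0e8_gt, module Extract. -/

open scoped ContDiff Topology
open MeasureTheory Metric Set Filter

noncomputable section

namespace YR

variable {M : Type*} [TopologicalSpace M] [CompactSpace M] [T2Space M] [ConnectedSpace M]
  [MeasurableSpace M] [BorelSpace M] {𝒜 : Atl M} (𝒢 : Met 𝒜)

/-- (EXTRACT) Arzela-Ascoli -/
theorem extract (v : ℕ → M → ℝ) (hv : ∀ n, 𝒜.Sm (v n)) (h0 : ∀ n p, 0 < v n p)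
    (h1 : ∀ n p, v n p ≤ 1) (hm : ∀ n, ∃ p, v n p = 1) (A : ℝ)
    (hA : ∀ n, ∫ p, 𝒢.inn (v n) (v n) p ^ 2 ∂𝒢.vol ≤ A) :
    ∃ (θ : ℕ → ℕ) (V : M → ℝ), StrictMono θ ∧ Continuous V ∧
      TendstoUniformly (fun n => v (θ n)) V atTop ∧ ∃ p, V p = 1 := by sorry

end YR
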