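import Pool.Agent.Work.MP_71b0e8_gt.DefsA

/-! MP_71b0e8_gt, module Scale. -/

open scoped ContDiff Topology
open MeasureTheory Metric Set Filter

noncomputable section

namespace YR

variable {M : Type*} [TopologicalSpace M] [CompactSpace M] [T2Space M] [ConnectedSpace M]
  [MeasurableSpace M] [BorelSpace M] {𝒜 : Atl M} (𝒢 : Met 𝒜)

/-- (SCALE) -/
theorem scal_smul {w : M → ℝ} (hw : 𝒜.Sm w) (hp : ∀ p, 0 < w p) {c : ℝ} (hc : 0 < c)
    (hw' : 𝒜.Sm (fun p => c * w p)) (hp' : ∀ p, 0 < c * w p) (p : M) :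
    (𝒢.conf (fun p => c * w p) hw' hp').scal p = c ^ 2 * (𝒢.conf w hw hp).scal p := by sorry

/-- (SCALE) -/
theorem EE_smul {w : M → ℝ} (hw : 𝒜.Sm w) (hp : ∀ p, 0 < w p) {c : ℝ} (hc : 0 < c)
    (hw' : 𝒜.Sm (fun p => c * w p)) (hp' : ∀ p, 0 < c * w p) :
    (𝒢.conf (fun p => c * w p) hw' hp').EE = (𝒢.conf w hw hp).EE := by sorry

end YR
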