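import Pool.Agent.Work.MP_71b0e8_gt.DefsA
import Pool.Agent.Work.MP_71b0e8_gt.Skel.TL1

/-! MP_71b0e8_gt, module TL2. -/

open scoped ContDiff Topology
open MeasureTheory Metric Set Filter

noncomputable section

namespace YR


/-- (TL2) testing in a chart -/
theorem test_chart {G : E → Mat} (hG : LM (ball 0 4) G) {r : ℝ} (hr : r < 4) :
    ∃ C : ℝ, 0 ≤ C ∧ ∀ w f : E → ℝ, ContDiffOn ℝ ∞ w (ball 0 4) → ContDiffOn ℝ ∞ f (ball 0 4) →
      (∀ x ∈ ball (0 : E) 4, 0 < w x) →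
      ∀ φ, Tst (ball 0 r) φ → ∀ K, (∀ x, |φ x| ≤ K) → (∀ x, ‖fderiv ℝ φ x‖ ≤ K) → ∀ a b,
      |∫ x, TT G w a b x * φ x| ≤ C * K * ∫ x in ball (0 : E) r,
        (w x * √(ip G (fun a b => ric0 (cf G w) a b x - qq (cf G w) f a b x)
            (fun a b => ric0 (cf G w) a b x - qq (cf G w) f a b x) x)
          + w x * √(inn G f f x) + √(inn G w w x) * √(inn G f f x) + w x * inn G f f x) := by
  sorry

end YR
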