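import Pool.Agent.Work.MP_71b0e8_gt.DefsA
import Pool.Agent.Work.MP_71b0e8_gt.Skel.TL2

/-! MP_71b0e8_gt, module TestLim. -/

open scoped ContDiff Topology
open MeasureTheory Metric Set Filter

noncomputable section

namespace YR

variable {M : Type*} [TopologicalSpace M] [CompactSpace M] [T2Space M] [ConnectedSpace M]
  [MeasurableSpace M] [BorelSpace M] {𝒜 : Atl M} (𝒢 : Met 𝒜)

/-- (TESTLIM) -/
theorem test_limit (v f : ℕ → M → ℝ) (hv : ∀ n, 𝒜.Sm (v n)) (hv0 : ∀ n p, 0 < v n p)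
    (hv1 : ∀ n p, v n p ≤ 1) (hf : ∀ n, 𝒜.Sm (f n)) (hw : ∀ n, 𝒜.Sm (fun p => v n p ^ 4))
    (hp : ∀ n p, 0 < v n p ^ 4) (A : ℝ)
    (hA : ∀ n, ∫ p, 𝒢.inn (v n) (v n) p ^ 2 ∂𝒢.vol ≤ A)
    (h4 : Tendsto (fun n => ∫ p, (𝒢.conf (fun p => v n p ^ 4) (hw n) (hp n)).inn (f n) (f n) p ^ 2
      ∂(𝒢.conf (fun p => v n p ^ 4) (hw n) (hp n)).vol) atTop (𝓝 0))
    (hq : Tendsto (fun n => ∫ p, (𝒢.conf (fun p => v n p ^ 4) (hw n) (hp n)).q2 (f n) p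
      ∂(𝒢.conf (fun p => v n p ^ 4) (hw n) (hp n)).vol) atTop (𝓝 0))
    (i : Fin 𝒜.n) {r : ℝ} (hr : r < 4) :
    ∃ ε : ℕ → ℝ, Tendsto ε atTop (𝓝 0) ∧ ∀ n φ, Tst (ball 0 r) φ → ∀ K, (∀ x, |φ x| ≤ K) →
      (∀ x, ‖fderiv ℝ φ x‖ ≤ K) → ∀ a b,
      |∫ x, TT (𝒢.g i) (𝒜.rd (fun p => v n p ^ 4) i) a b x * φ x| ≤ ε n * K := by sorry

end YR
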