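import Pool.Agent.Work.MP_71b0e8_gt.DefsA
import Pool.Agent.Work.MP_71b0e8_gt.Skel.Ineq2
import Pool.Agent.Work.MP_71b0e8_gt.Skel.Apriori
import Pool.Agent.Work.MP_71b0e8_gt.Skel.Eig
import Pool.Agent.Work.MP_71b0e8_gt.Skel.Extract
import Pool.Agent.Work.MP_71b0e8_gt.Skel.TestLim
import Pool.Agent.Work.MP_71b0e8_gt.Skel.Reg
import Pool.Agent.Work.MP_71b0e8_gt.Skel.Scale

/-! MP_71b0e8_gt, module PartA. -/

open scoped ContDiff Topology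
open MeasureTheory Metric Set Filter

noncomputable section

namespace YR

variable {M : Type*} [TopologicalSpace M] [CompactSpace M] [T2Space M] [ConnectedSpace M]
  [MeasurableSpace M] [BorelSpace M] {𝒜 : Atl M} (𝒢 : Met 𝒜)

/-- (PARTA) -/
theorem partA (hR : ∀ p, 0 < 𝒢.scal p) (hD : ∀ 𝒢' : Met 𝒜, (∀ p, 0 < 𝒢'.scal p) → DR 𝒢' 0)
    (hsup : ∀ δ > 0, ∃ (w : M → ℝ) (hw : 𝒜.Sm w) (hp : ∀ p, 0 < w p),
      (∀ p, 0 < (𝒢.conf w hw hp).scal p) ∧ 1 / 3 - δ < (𝒢.conf w hw hp).EE) :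
    ∃ w : M → ℝ, Sol 𝒢 w ∧ (∀ p, 0 ≤ w p) ∧ ∃ p, w p ≠ 0 := by sorry

end YR
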