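import Pool.Agent.Work.MP_71b0e8_gt.Skel.Inv
import Pool.Agent.Work.MP_71b0e8_gt.Skel.Glob0

/-!
Skeleton GLOB1: chart formulas for the global operators, smoothness, locality.
All chart formulas hold in EVERY chart (the definition uses only the chart `idx p`).
-/

open scoped ContDiff Topology
open MeasureTheory Metric Set Filter

noncomputable section

namespace YR

variable {M : Type*} [TopologicalSpace M] {𝒜 : Atl M} (𝒢 : Met 𝒜) {U V : Set M}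
  {u v w f u' v' w' : M → ℝ} {p : M}

namespace Met

/-- coordinate changes are isometries -/
theorem cc (i j : Fin 𝒜.n) (hU : IsOpen U) :
    CC {z ∈ ball (0 : E) 4 | (𝒜.φ i).symm z ∈ (𝒜.φ j).source ∩ U} (𝒢.g i) (𝒜.dom U j) (𝒢.g j)
      (𝒜.tr i j) := by sorry

/-! ### chart formulas -/

theorem inn_chart (hU : IsOpen U) (hu : 𝒜.SmOn U u) (hv : 𝒜.SmOn U v) (i : Fin 𝒜.n) {z : E}
    (hz : z ∈ 𝒜.dom U i) :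
    𝒢.inn u v ((𝒜.φ i).symm z) =
      YR.inn (𝒢.g i) (𝒜.rd u i) (𝒜.rd v i) z := by sorry

theorem lap_chart (hU : IsOpen U) (hu : 𝒜.SmOn U u) (i : Fin 𝒜.n) {z : E}
    (hz : z ∈ 𝒜.dom U i) :
    𝒢.lap u ((𝒜.φ i).symm z) =
      YR.lap (𝒢.g i) (𝒜.rd u i) z := by sorry

theorem scal_chart (i : Fin 𝒜.n) {z : E} (hz : z ∈ ball (0 : E) 4) :
    𝒢.scal ((𝒜.φ i).symm z) =
      YR.scal (𝒢.g i) z := by sorry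

theorem ricv_chart (hU : IsOpen U) (hu : 𝒜.SmOn U u) (hv : 𝒜.SmOn U v) (i : Fin 𝒜.n) {z : E}
    (hz : z ∈ 𝒜.dom U i) :
    𝒢.ricv u v ((𝒜.φ i).symm z) =
      YR.ev (𝒢.g i) (fun a b => YR.ric (𝒢.g i) a b z) (𝒜.rd u i) (𝒜.rd v i) z := by sorry

theorem hessv_chart (hU : IsOpen U) (hw : 𝒜.SmOn U w) (hu : 𝒜.SmOn U u) (hv : 𝒜.SmOn U v) (i : Fin 𝒜.n) {z : E}
    (hz : z ∈ 𝒜.dom U i) :
    𝒢.hessv w u v ((𝒜.φ i).symm z) =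
      YR.ev (𝒢.g i) (fun a b => YR.hess (𝒢.g i) (𝒜.rd w i) a b z) (𝒜.rd u i) (𝒜.rd v i) z := by sorry

theorem h2_chart (hU : IsOpen U) (hu : 𝒜.SmOn U u) (i : Fin 𝒜.n) {z : E}
    (hz : z ∈ 𝒜.dom U i) :
    𝒢.h2 u ((𝒜.φ i).symm z) =
      YR.ip (𝒢.g i) (fun a b => YR.hess (𝒢.g i) (𝒜.rd u i) a b z)
        (fun a b => YR.hess (𝒢.g i) (𝒜.rd u i) a b z) z := by sorry

theorem t2_chart (hU : IsOpen U) (hu : 𝒜.SmOn U u) (i : Fin 𝒜.n) {z : E}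
    (hz : z ∈ 𝒜.dom U i) :
    𝒢.t2 u ((𝒜.φ i).symm z) =
      YR.ip (𝒢.g i) (fun a b => YR.TT (𝒢.g i) (𝒜.rd u i) a b z)
        (fun a b => YR.TT (𝒢.g i) (𝒜.rd u i) a b z) z := by sorry

theorem e2_chart (i : Fin 𝒜.n) {z : E} (hz : z ∈ ball (0 : E) 4) :
    𝒢.e2 ((𝒜.φ i).symm z) =
      YR.ip (𝒢.g i) (fun a b => YR.ric0 (𝒢.g i) a b z) (fun a b => YR.ric0 (𝒢.g i) a b z) z := by sorry

theorem sig2_chart (i : Fin 𝒜.n) {z : E} (hz : z ∈ ball (0 : E) 4) :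
    𝒢.sig2 ((𝒜.φ i).symm z) =
      YR.sig2 (𝒢.g i) z := by sorry

theorem eh_chart (hU : IsOpen U) (hu : 𝒜.SmOn U u) (i : Fin 𝒜.n) {z : E}
    (hz : z ∈ 𝒜.dom U i) :
    𝒢.eh u ((𝒜.φ i).symm z) =
      YR.ip (𝒢.g i) (fun a b => YR.ric0 (𝒢.g i) a b z)
        (fun a b => YR.hess (𝒢.g i) (𝒜.rd u i) a b z) z := by sorry

theorem q2_chart (hU : IsOpen U) (hu : 𝒜.SmOn U u) (i : Fin 𝒜.n) {z : E}
    (hz : z ∈ 𝒜.dom U i) :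
    𝒢.q2 u ((𝒜.φ i).symm z) =
      YR.ip (𝒢.g i) (fun a b => YR.ric0 (𝒢.g i) a b z - YR.qq (𝒢.g i) (𝒜.rd u i) a b z)
        (fun a b => YR.ric0 (𝒢.g i) a b z - YR.qq (𝒢.g i) (𝒜.rd u i) a b z) z := by sorry

theorem rho_chart (hU : IsOpen U) (hu : 𝒜.SmOn U u) (i : Fin 𝒜.n) {z : E}
    (hz : z ∈ 𝒜.dom U i) :
    𝒢.rho u ((𝒜.φ i).symm z) =
      YR.rho (𝒢.g i) (𝒜.rd u i) z := by sorry

theorem bb_chart (hU : IsOpen U) (hu : 𝒜.SmOn U u) (hv : 𝒜.SmOn U v) (i : Fin 𝒜.n) {z : E}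
    (hz : z ∈ 𝒜.dom U i) :
    𝒢.bb u v ((𝒜.φ i).symm z) =
      YR.bb (𝒢.g i) (𝒜.rd u i) (𝒜.rd v i) z := by sorry

/-! ### smoothness -/

theorem SmOn_inn (hU : IsOpen U) (hu : 𝒜.SmOn U u) (hv : 𝒜.SmOn U v) :
    𝒜.SmOn U (𝒢.inn u v) := by sorry

theorem Sm_inn (hu : 𝒜.Sm u) (hv : 𝒜.Sm v) : 𝒜.Sm (𝒢.inn u v) := by sorry

theorem SmOn_lap (hU : IsOpen U) (hu : 𝒜.SmOn U u) :
    𝒜.SmOn U (𝒢.lap u) := by sorry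

theorem Sm_lap (hu : 𝒜.Sm u) : 𝒜.Sm (𝒢.lap u) := by sorry

theorem Sm_scal : 𝒜.Sm 𝒢.scal := by sorry

theorem SmOn_ricv (hU : IsOpen U) (hu : 𝒜.SmOn U u) (hv : 𝒜.SmOn U v) :
    𝒜.SmOn U (𝒢.ricv u v) := by sorry

theorem Sm_ricv (hu : 𝒜.Sm u) (hv : 𝒜.Sm v) : 𝒜.Sm (𝒢.ricv u v) := by sorry

theorem SmOn_hessv (hU : IsOpen U) (hw : 𝒜.SmOn U w) (hu : 𝒜.SmOn U u) (hv : 𝒜.SmOn U v) :
    𝒜.SmOn U (𝒢.hessv w u v) := by sorry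

theorem Sm_hessv (hw : 𝒜.Sm w) (hu : 𝒜.Sm u) (hv : 𝒜.Sm v) : 𝒜.Sm (𝒢.hessv w u v) := by sorry

theorem SmOn_h2 (hU : IsOpen U) (hu : 𝒜.SmOn U u) :
    𝒜.SmOn U (𝒢.h2 u) := by sorry

theorem Sm_h2 (hu : 𝒜.Sm u) : 𝒜.Sm (𝒢.h2 u) := by sorry

theorem SmOn_t2 (hU : IsOpen U) (hu : 𝒜.SmOn U u) :
    𝒜.SmOn U (𝒢.t2 u) := by sorry

theorem Sm_t2 (hu : 𝒜.Sm u) : 𝒜.Sm (𝒢.t2 u) := by sorry

theorem Sm_e2 : 𝒜.Sm 𝒢.e2 := by sorry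

theorem Sm_sig2 : 𝒜.Sm 𝒢.sig2 := by sorry

theorem SmOn_eh (hU : IsOpen U) (hu : 𝒜.SmOn U u) :
    𝒜.SmOn U (𝒢.eh u) := by sorry

theorem Sm_eh (hu : 𝒜.Sm u) : 𝒜.Sm (𝒢.eh u) := by sorry

theorem SmOn_q2 (hU : IsOpen U) (hu : 𝒜.SmOn U u) :
    𝒜.SmOn U (𝒢.q2 u) := by sorry

theorem Sm_q2 (hu : 𝒜.Sm u) : 𝒜.Sm (𝒢.q2 u) := by sorry

theorem SmOn_rho (hU : IsOpen U) (hu : 𝒜.SmOn U u) :
    𝒜.SmOn U (𝒢.rho u) := by sorry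

theorem Sm_rho (hu : 𝒜.Sm u) : 𝒜.Sm (𝒢.rho u) := by sorry

theorem SmOn_bb (hU : IsOpen U) (hu : 𝒜.SmOn U u) (hv : 𝒜.SmOn U v) :
    𝒜.SmOn U (𝒢.bb u v) := by sorry

theorem Sm_bb (hu : 𝒜.Sm u) (hv : 𝒜.Sm v) : 𝒜.Sm (𝒢.bb u v) := by sorry

theorem SmOn_L (hU : IsOpen U) (hu : 𝒜.SmOn U u) :
    𝒜.SmOn U (𝒢.L u) := by sorry

theorem Sm_L (hu : 𝒜.Sm u) : 𝒜.Sm (𝒢.L u) := by sorry

/-! ### locality : only the germs at `p` matter -/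

theorem inn_congr (hU : IsOpen U) (hp : p ∈ U) (hu : EqOn u u' U) (hv : EqOn v v' U) :
    𝒢.inn u v p = 𝒢.inn u' v' p := by sorry

theorem lap_congr (hU : IsOpen U) (hp : p ∈ U) (hu : EqOn u u' U) :
    𝒢.lap u p = 𝒢.lap u' p := by sorry

theorem ricv_congr (hU : IsOpen U) (hp : p ∈ U) (hu : EqOn u u' U) (hv : EqOn v v' U) :
    𝒢.ricv u v p = 𝒢.ricv u' v' p := by sorry

theorem hessv_congr (hU : IsOpen U) (hp : p ∈ U) (hw : EqOn w w' U) (hu : EqOn u u' U) (hv : EqOn v v' U) :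
    𝒢.hessv w u v p = 𝒢.hessv w' u' v' p := by sorry

theorem h2_congr (hU : IsOpen U) (hp : p ∈ U) (hu : EqOn u u' U) :
    𝒢.h2 u p = 𝒢.h2 u' p := by sorry

theorem t2_congr (hU : IsOpen U) (hp : p ∈ U) (hu : EqOn u u' U) :
    𝒢.t2 u p = 𝒢.t2 u' p := by sorry

theorem eh_congr (hU : IsOpen U) (hp : p ∈ U) (hu : EqOn u u' U) :
    𝒢.eh u p = 𝒢.eh u' p := by sorry

theorem q2_congr (hU : IsOpen U) (hp : p ∈ U) (hu : EqOn u u' U) :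
    𝒢.q2 u p = 𝒢.q2 u' p := by sorry

theorem rho_congr (hU : IsOpen U) (hp : p ∈ U) (hu : EqOn u u' U) :
    𝒢.rho u p = 𝒢.rho u' p := by sorry

theorem bb_congr (hU : IsOpen U) (hp : p ∈ U) (hu : EqOn u u' U) (hv : EqOn v v' U) :
    𝒢.bb u v p = 𝒢.bb u' v' p := by sorry

theorem L_congr (hU : IsOpen U) (hp : p ∈ U) (hu : EqOn u u' U) :
    𝒢.L u p = 𝒢.L u' p := by sorry

end Met

end YR
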