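import Pool.Agent.Work.MP_71b0e8_gt.Skel.Loc6

/-!
Skeleton INV: invariance of the chart operators under (local) isometries `τ : (V, G) → (V', G')`.

Hint: `inn` directly; `hess` by `hess_polar` (or the transformation law of `chr`); `ric` by
`bochner` (the left side is invariant, use `u = ∑ c_a x_a`, polarize with `ric_symm` and the
invertibility of the Jacobian).
-/

open scoped ContDiff Topology
open MeasureTheory Metric Set Filter

noncomputable section

namespace YR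

/-- `τ` is a smooth map with `τ^* G' = G` -/
structure CC (V : Set E) (G : E → Mat) (V' : Set E) (G' : E → Mat) (τ : E → E) : Prop where
  lm : LM V G
  lm' : LM V' G'
  maps : ∀ x ∈ V, τ x ∈ V'
  smooth : ContDiffOn ℝ ∞ τ V
  pull : ∀ x ∈ V, ∀ a b, G x a b =
    ∑ c, ∑ d, (fderiv ℝ τ x (be a)) c * (fderiv ℝ τ x (be b)) d * G' (τ x) c d

/-- `h` is the pull back of the bilinear form `h'` at `x` -/
def PB (τ : E → E) (x : E) (h h' : Fin 3 → Fin 3 → ℝ) : Prop :=
  ∀ a b, h a b = ∑ c, ∑ d, (fderiv ℝ τ x (be a)) c * (fderiv ℝ τ x (be b)) d * h' c d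

theorem PB.add {τ : E → E} {x : E} {h h' k k' : Fin 3 → Fin 3 → ℝ} (hh : PB τ x h h')
    (hk : PB τ x k k') : PB τ x (fun a b => h a b + k a b) (fun a b => h' a b + k' a b) := by sorry

theorem PB.sub {τ : E → E} {x : E} {h h' k k' : Fin 3 → Fin 3 → ℝ} (hh : PB τ x h h')
    (hk : PB τ x k k') : PB τ x (fun a b => h a b - k a b) (fun a b => h' a b - k' a b) := by sorry

theorem PB.smul {τ : E → E} {x : E} {h h' : Fin 3 → Fin 3 → ℝ} (hh : PB τ x h h') (c : ℝ) :
    PB τ x (fun a b => c * h a b) (fun a b => c * h' a b) := by sorry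

section

variable {V V' : Set E} {G G' : E → Mat} {τ : E → E} (hc : CC V G V' G' τ)
  {u v w : E → ℝ} {x : E}

include hc

/-! ### INV1 : first order -/

theorem CC.diff (hu : ContDiffOn ℝ ∞ u V') : ContDiffOn ℝ ∞ (fun y => u (τ y)) V := by sorry

theorem CC.pd (hu : ContDiffOn ℝ ∞ u V') (hx : x ∈ V) (a : Fin 3) :
    YR.pd a (fun y => u (τ y)) x = ∑ c, (fderiv ℝ τ x (be a)) c * YR.pd c u (τ x) := by sorry

theorem CC.metric (hx : x ∈ V) : PB τ x (fun a b => G x a b) (fun a b => G' (τ x) a b) := by sorry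

theorem CC.dd (hu : ContDiffOn ℝ ∞ u V') (hv : ContDiffOn ℝ ∞ v V') (hx : x ∈ V) :
    PB τ x (fun a b => YR.pd a (fun y => u (τ y)) x * YR.pd b (fun y => v (τ y)) x)
      (fun a b => YR.pd a u (τ x) * YR.pd b v (τ x)) := by sorry

theorem CC.tr (hx : x ∈ V) {h h' : Fin 3 → Fin 3 → ℝ} (hh : PB τ x h h') :
    YR.tr G h x = YR.tr G' h' (τ x) := by sorry

theorem CC.ip (hx : x ∈ V) {h h' k k' : Fin 3 → Fin 3 → ℝ} (hh : PB τ x h h')
    (hk : PB τ x k k') : YR.ip G h k x = YR.ip G' h' k' (τ x) := by sorry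

theorem CC.ev (hu : ContDiffOn ℝ ∞ u V') (hv : ContDiffOn ℝ ∞ v V') (hx : x ∈ V)
    {h h' : Fin 3 → Fin 3 → ℝ} (hh : PB τ x h h') :
    YR.ev G h (fun y => u (τ y)) (fun y => v (τ y)) x = YR.ev G' h' u v (τ x) := by sorry

theorem CC.inn (hu : ContDiffOn ℝ ∞ u V') (hv : ContDiffOn ℝ ∞ v V') (hx : x ∈ V) :
    YR.inn G (fun y => u (τ y)) (fun y => v (τ y)) x = YR.inn G' u v (τ x) := by sorry

theorem CC.sqrt_det (hx : x ∈ V) :
    √(G x).det = |(fderiv ℝ τ x).det| * √(G' (τ x)).det := by sorry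

/-! ### INV2 : Hessian and Laplacian -/

theorem CC.hess (hu : ContDiffOn ℝ ∞ u V') (hx : x ∈ V) :
    PB τ x (fun a b => YR.hess G (fun y => u (τ y)) a b x) (fun a b => YR.hess G' u a b (τ x)) := by
  sorry

theorem CC.lap (hu : ContDiffOn ℝ ∞ u V') (hx : x ∈ V) :
    YR.lap G (fun y => u (τ y)) x = YR.lap G' u (τ x) := by sorry

/-! ### INV3 : curvature -/

theorem CC.ric (hx : x ∈ V) : PB τ x (fun a b => YR.ric G a b x) (fun a b => YR.ric G' a b (τ x)) := by
  sorry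

theorem CC.scal (hx : x ∈ V) : YR.scal G x = YR.scal G' (τ x) := by sorry

theorem CC.sig2 (hx : x ∈ V) : YR.sig2 G x = YR.sig2 G' (τ x) := by sorry

theorem CC.ric0 (hx : x ∈ V) :
    PB τ x (fun a b => YR.ric0 G a b x) (fun a b => YR.ric0 G' a b (τ x)) := by sorry

theorem CC.sch (hx : x ∈ V) :
    PB τ x (fun a b => YR.sch G a b x) (fun a b => YR.sch G' a b (τ x)) := by sorry

theorem CC.rho (hu : ContDiffOn ℝ ∞ u V') (hx : x ∈ V) :
    YR.rho G (fun y => u (τ y)) x = YR.rho G' u (τ x) := by sorry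

theorem CC.TT (hu : ContDiffOn ℝ ∞ u V') (hx : x ∈ V) :
    PB τ x (fun a b => YR.TT G (fun y => u (τ y)) a b x) (fun a b => YR.TT G' u a b (τ x)) := by
  sorry

theorem CC.qq (hu : ContDiffOn ℝ ∞ u V') (hx : x ∈ V) :
    PB τ x (fun a b => YR.qq G (fun y => u (τ y)) a b x) (fun a b => YR.qq G' u a b (τ x)) := by
  sorry

end

end YR
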