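import Pool.Agent.Work.MP_71b0e8_gt.Skel.Loc8
import Pool.Agent.Work.MP_71b0e8_gt.Skel.Conf

/-!
Skeleton INT1: the Riemannian measure.
-/

open scoped ContDiff Topology
open MeasureTheory Metric Set Filter

noncomputable section

namespace YR

variable {M : Type*} [TopologicalSpace M] [T2Space M] [CompactSpace M] [MeasurableSpace M]
  [BorelSpace M] {𝒜 : Atl M} (𝒢 : Met 𝒜) {U V : Set M} {u v w f k : M → ℝ}

namespace Met

/-! ### INT1 : the measure -/

instance instFinVol : IsFiniteMeasure 𝒢.vol := by sorry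

instance instPosVol : 𝒢.vol.IsOpenPosMeasure := by sorry

instance instNoAtomsVol : NullSingletonClass 𝒢.vol := by sorry

/-- the measure in the chart `i` is `√det g dz` (change of variables, `CC.sqrt_det`) -/
theorem vol_chart (i : Fin 𝒜.n) : 𝒢.vol.restrict (𝒜.φ i).source =
    Measure.map (𝒜.φ i).symm ((volume.restrict (ball 0 4)).withDensity
      fun z => ENNReal.ofReal (√(𝒢.g i z).det)) := by sorry

/-- a measure which is `√det g dz` in every chart is the Riemannian measure -/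
theorem vol_unique (μ : Measure M) (h : ∀ i, μ.restrict (𝒜.φ i).source =
    Measure.map (𝒜.φ i).symm ((volume.restrict (ball 0 4)).withDensity
      fun z => ENNReal.ofReal (√(𝒢.g i z).det))) : μ = 𝒢.vol := by sorry

/-- integral of a function supported in a chart -/
theorem integral_chart (i : Fin 𝒜.n) {f : M → ℝ} (hf : ∀ p, p ∉ (𝒜.φ i).source → f p = 0) :
    ∫ p, f p ∂𝒢.vol = ∫ z in ball (0 : E) 4, 𝒜.rd f i z * √(𝒢.g i z).det := by sorry

theorem integrable_chart (i : Fin 𝒜.n) {f : M → ℝ} (hf : ∀ p, p ∉ (𝒜.φ i).source → f p = 0) :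
    Integrable f 𝒢.vol ↔
      IntegrableOn (fun z => 𝒜.rd f i z * √(𝒢.g i z).det) (ball (0 : E) 4) := by sorry

/-- integral over a compact part of a chart is bounded by the integral over `M` -/
theorem chart_integral_le (i : Fin 𝒜.n) {K : Set E} (hK : IsCompact K) (hK4 : K ⊆ ball 0 4) :
    ∃ C : ℝ, 0 < C ∧ ∀ f : M → ℝ, Integrable f 𝒢.vol → (∀ p, 0 ≤ f p) →
      IntegrableOn (𝒜.rd f i) K ∧ ∫ z in K, 𝒜.rd f i z ≤ C * ∫ p, f p ∂𝒢.vol := by sorry

/-- and conversely -/
theorem integral_le_charts : ∃ C : ℝ, 0 < C ∧ ∀ f : M → ℝ, Integrable f 𝒢.vol → (∀ p, 0 ≤ f p) →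
    ∫ p, f p ∂𝒢.vol ≤ C * ∑ i, ∫ z in ball (0 : E) 1, 𝒜.rd f i z := by sorry

theorem integrable_of_continuous {f : M → ℝ} (hf : Continuous f) : Integrable f 𝒢.vol := by sorry

theorem integrable_sm (hu : 𝒜.Sm u) : Integrable u 𝒢.vol := by sorry

theorem V_pos [Nonempty M] : 0 < 𝒢.V := by sorry

theorem eq_zero_of_integral_eq_zero {f : M → ℝ} (hf : Continuous f) (h0 : ∀ p, 0 ≤ f p)
    (h : ∫ p, f p ∂𝒢.vol = 0) : ∀ p, f p = 0 := by sorry

theorem integral_pos [Nonempty M] {f : M → ℝ} (hf : Continuous f) (h0 : ∀ p, 0 < f p) :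
    0 < ∫ p, f p ∂𝒢.vol := by sorry

end Met

end YR
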