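import Pool.Agent.Work.MP_71b0e8_gt.Skel.Loc3
import Pool.Agent.Work.MP_71b0e8_gt.DefsA

/-! Skeleton DR (dense range of `L + λ`, `λ` large): definitions.

Levi parametrix in one chart: `s = q_y(x - y) + δ`, `k(x,y) = √det G(y) / κ₀ · Φ(s)` where
`Φ(s) ≈ e^{-μ√s}/√s` (cut off at `s = σ`), `λ = 8 μ²`. One has
`lap (Φ(s)) = Φ'(s) lap s + Φ''(s) |ds|²`, `|ds|² = 4 q + O(|x-y|³)`, `lap s = 6 + O(|x-y|)`. -/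

open scoped ContDiff Topology
open MeasureTheory Metric Set Filter

noncomputable section

namespace YR

/-- a scalar profile `Φ`, close to `e^{-μ√s}/√s`, with `Φ(s) = 0` for `s ≥ σ` -/
structure Prof (K μ σ ε : ℝ) where
  P : ℝ → ℝ
  P1 : ℝ → ℝ
  P2 : ℝ → ℝ
  smooth : ContDiffOn ℝ ∞ P (Ioi 0)
  d1 : ∀ s, 0 < s → HasDerivAt P (P1 s) s
  d2 : ∀ s, 0 < s → HasDerivAt P1 (P2 s) s
  zero : ∀ s, σ ≤ s → P s = 0 ∧ P1 s = 0 ∧ P2 s = 0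
  ode : ∀ s, 0 < s → |4 * s * P2 s + 6 * P1 s - μ ^ 2 * P s| ≤ ε
  b0 : ∀ s, 0 < s → |P s| ≤ K * Real.exp (-(μ / 2) * √s) / √s
  b1 : ∀ s, 0 < s → |P1 s| ≤ K * Real.exp (-(μ / 2) * √s) / √s ^ 3
  b2 : ∀ s, 0 < s → |P2 s| ≤ K * Real.exp (-(μ / 2) * √s) / √s ^ 5
  asy : Tendsto (fun s => √s ^ 5 * P2 s) (𝓝[>] 0) (𝓝 (3 / 4))

/-- `|z|²` with respect to `G y` -/
def qd (G : E → Mat) (y z : E) : ℝ := ∑ a, ∑ b, G y a b * z a * z b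

/-- `κ₀ = ∫ 24 (|v|² + 1)^{-5/2}` -/
def kap0 : ℝ := ∫ v : E, 24 / √(‖v‖ ^ 2 + 1) ^ 5

/-- the kernel `k(x, y)` with profile `P` -/
def kk (G : E → Mat) (P : ℝ → ℝ) (δ : ℝ) (x y : E) : ℝ :=
  √(G y).det / kap0 * P (qd G y (x - y) + δ)

end YR
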