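import Pool.Agent.Work.MP_71b0e8_gt.Skel.DR0

open scoped ContDiff Topology
open MeasureTheory Metric Set Filter

noncomputable section

namespace YR

/-! ### DRA : the scalar profile `Φ(s) = e^{-μ√s}/√s · η(s)`, `η(s) = smoothTransition (2 - 2s/σ)`.
(`4sΦ₀'' + 6Φ₀' = μ²Φ₀` for `Φ₀ = e^{-μ√s}/√s`; the error of `ode` is supported on `[σ/2, σ]` and is
`≤ C(σ)(1+μ)e^{-μ√(σ/2)}`; use `(1+t)^k e^{-t/2} ≤ C`). `K` depends only on `σ`. -/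

theorem exists_prof {σ : ℝ} (hσ : 0 < σ) : ∃ K : ℝ, 0 < K ∧ ∀ ε : ℝ, 0 < ε →
    ∃ μ0 : ℝ, 0 < μ0 ∧ ∀ μ : ℝ, μ0 ≤ μ → Nonempty (Prof K μ σ ε) := by sorry

end YR
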