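import Pool.Agent.Work.MP_71b0e8_gt.Skel.DRA
import Pool.Agent.Work.MP_71b0e8_gt.Skel.DRB
import Pool.Agent.Work.MP_71b0e8_gt.Skel.DRC

open scoped ContDiff Topology
open MeasureTheory Metric Set Filter

noncomputable section

namespace YR

/-! ### DRD : the approximate identity. Substitute `y = x - √δ v`; the function
`(x, δ) ↦ ∫ √det G(x - √δ v)/κ₀ · 32 · δ^{5/2} Φ''(δ (q_{x-√δv}(v) + 1)) h(x - √δ v) dv` extends
continuously to `δ = 0` (dominated by `C (1 + |v|²)^{-5/2}`), hence uniformly for `x` in a compact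
set (or argue by contradiction with sequences). -/

theorem approx_id {G : E → Mat} (hG : LM (ball 0 4) G) {K μ σ ε : ℝ} (p : Prof K μ σ ε)
    (hμ : 0 < μ)
    (hσ : ∀ y ∈ closedBall (0 : E) 2, ∀ z : E, qd G y z < σ → ‖z‖ ≤ 1)
    {h : E → ℝ} (hc : Continuous h) (hs : ∀ y, h y ≠ 0 → ‖y‖ ≤ 2) {η : ℝ} (hη : 0 < η) :
    ∀ᶠ δ in 𝓝[>] (0 : ℝ), ∀ x : E,
      |(∫ y in closedBall (0 : E) 2,
        √(G y).det / kap0 * (32 * δ * p.P2 (qd G y (x - y) + δ)) * h y) - h x| ≤ η := by sorry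

end YR
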