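import Pool.Agent.Work.MP_71b0e8_gt.Skel.DRD
import Pool.Agent.Work.MP_71b0e8_gt.Skel.DRE

open scoped ContDiff Topology
open MeasureTheory Metric Set Filter

noncomputable section

namespace YR

/-! ### DRF : assembly of the local parametrix -/

theorem param {G : E → Mat} (hG : LM (ball 0 4) G) {c : ℝ} (hc : 0 < c) :
    ∃ lam0 : ℝ, 0 < lam0 ∧ ∀ lam : ℝ, lam0 ≤ lam → ∀ f : E → ℝ, ContDiff ℝ ∞ f →
      (∀ x, f x ≠ 0 → ‖x‖ ≤ 2) → (∀ x, |f x| ≤ 1) →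
      ∃ u : E → ℝ, ContDiff ℝ ∞ u ∧ (∀ x, u x ≠ 0 → ‖x‖ ≤ 3) ∧ (∀ x, |u x| ≤ c) ∧
        ∀ x ∈ ball (0 : E) 4, |-8 * lap G u x + lam * u x - f x| ≤ c := by sorry

end YR
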