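import Pool.Agent.Work.MP_71b0e8_gt.Skel.Int1

/-!
Skeleton INT2: integration by parts.
-/

open scoped ContDiff Topology
open MeasureTheory Metric Set Filter

noncomputable section

namespace YR

variable {M : Type*} [TopologicalSpace M] [T2Space M] [CompactSpace M] [MeasurableSpace M]
  [BorelSpace M] {𝒜 : Atl M} (𝒢 : Met 𝒜) {U V : Set M} {u v w f k : M → ℝ}

namespace Met

/-! ### INT2 : integration by parts (partition of unity, `div_grad`, `div_ric0_grad`) -/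

theorem integral_lap (hu : 𝒜.Sm u) : ∫ p, 𝒢.lap u p ∂𝒢.vol = 0 := by sorry

theorem integral_inn (hu : 𝒜.Sm u) (hv : 𝒜.Sm v) :
    ∫ p, 𝒢.inn u v p ∂𝒢.vol = -∫ p, u p * 𝒢.lap v p ∂𝒢.vol := by sorry

theorem integral_mul_inn (hf : 𝒜.Sm f) (hu : 𝒜.Sm u) (hv : 𝒜.Sm v) :
    ∫ p, f p * 𝒢.inn u v p ∂𝒢.vol =
      -∫ p, u p * (f p * 𝒢.lap v p + 𝒢.inn f v p) ∂𝒢.vol := by sorry

theorem integral_lap_symm (hu : 𝒜.Sm u) (hv : 𝒜.Sm v) :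
    ∫ p, u p * 𝒢.lap v p ∂𝒢.vol = ∫ p, v p * 𝒢.lap u p ∂𝒢.vol := by sorry

theorem integral_L_symm (hu : 𝒜.Sm u) (hv : 𝒜.Sm v) :
    ∫ p, u p * 𝒢.L v p ∂𝒢.vol = ∫ p, v p * 𝒢.L u p ∂𝒢.vol := by sorry

/-- Bochner with a cut off -/
theorem integral_bochner (hf : 𝒜.Sm f) (hu : 𝒜.Sm u) :
    ∫ p, f p * (𝒢.h2 u p - 𝒢.lap u p ^ 2 + 𝒢.ricv u u p) ∂𝒢.vol =
      ∫ p, (𝒢.lap u p * 𝒢.inn f u p - 𝒢.inn f (𝒢.inn u u) p / 2) ∂𝒢.vol := by sorry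

/-- `∫ f ⟨Ric⁰, Hess u⟩`, from `div Ric⁰ = dR/6` -/
theorem integral_eh (hf : 𝒜.Sm f) (hu : 𝒜.Sm u) :
    ∫ p, f p * 𝒢.eh u p ∂𝒢.vol = -∫ p, (f p * 𝒢.inn 𝒢.scal u p / 6 +
      (𝒢.ricv u f p - 𝒢.scal p / 3 * 𝒢.inn u f p)) ∂𝒢.vol := by sorry

end Met

end YR
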