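import Pool.Agent.Work.MP_71b0e8_gt.Statement
import Pool.Agent.Work.MP_71b0e8_gt.Skel.Int

/-!
Skeleton LINK: from Mathlib manifolds to `Atl`, `Met`.
-/

open scoped ContDiff Manifold Topology
open MeasureTheory Metric Set

noncomputable section

namespace YR

variable {M : Type*} [TopologicalSpace M] [ChartedSpace E M] [IsManifold (𝓡 3) ∞ M]

/-! ### LINK1 : the atlas -/

/-- an atlas whose charts are `A ∘ chartAt x_i`, `A` a homothety, restricted -/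
structure Adapted (𝒜 : Atl M) where
  x : Fin 𝒜.n → M
  c : Fin 𝒜.n → E
  r : Fin 𝒜.n → ℝ
  r_pos : ∀ i, 0 < r i
  sub : ∀ i, ball (c i) (4 * r i) ⊆ (chartAt E (x i)).target
  symm_eq : ∀ i, ∀ z ∈ ball (0 : E) 4, (𝒜.φ i).symm z = (chartAt E (x i)).symm (c i + r i • z)
  source_eq : ∀ i, (𝒜.φ i).source =
    {p ∈ (chartAt E (x i)).source | chartAt E (x i) p ∈ ball (c i) (4 * r i)}
  eq : ∀ i, ∀ p ∈ (𝒜.φ i).source, c i + r i • 𝒜.φ i p = chartAt E (x i) p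

theorem exists_atl [CompactSpace M] : ∃ 𝒜 : Atl M, Nonempty (Adapted 𝒜) := by sorry

variable {𝒜 : Atl M} (had : Adapted 𝒜)

include had

theorem sm_iff_contMDiff {u : M → ℝ} : 𝒜.Sm u ↔ ContMDiff (𝓡 3) 𝓘(ℝ, ℝ) ∞ u := by sorry

/-! ### LINK2 : metrics -/

/-- the charts of the atlas are smooth maps -/
theorem contMDiffOn_symm (i : Fin 𝒜.n) :
    ContMDiffOn (𝓡 3) (𝓡 3) ∞ (𝒜.φ i).symm (ball 0 4) := by sorry

theorem contMDiffOn_phi (i : Fin 𝒜.n) :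
    ContMDiffOn (𝓡 3) (𝓡 3) ∞ (𝒜.φ i) (𝒜.φ i).source := by sorry

theorem exists_met (g : RMet M) : ∃ 𝒢 : Met 𝒜, ∀ i, 𝒢.g i = gmat g (𝒜.φ i) := by sorry

theorem scalR_eq (g : RMet M) (𝒢 : Met 𝒜) (h : ∀ i, 𝒢.g i = gmat g (𝒜.φ i)) (p : M) :
    scalR g p = 𝒢.scal p := by sorry

theorem sigma2_eq (g : RMet M) (𝒢 : Met 𝒜) (h : ∀ i, 𝒢.g i = gmat g (𝒜.φ i)) (p : M) :
    sigma2 g p = 𝒢.sig2 p := by sorry

/-- `|Ric⁰| = 0` and `R = 6` imply curvature one -/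
theorem curvOne_of (g : RMet M) (𝒢 : Met 𝒜) (h : ∀ i, 𝒢.g i = gmat g (𝒜.φ i))
    (h1 : ∀ p, 𝒢.e2 p = 0) (h2 : ∀ p, 𝒢.scal p = 6) : CurvOne g := by sorry

/-! ### LINK3 : conformal metrics -/

theorem conf_of_confTo (g₀ g : RMet M) (𝒢₀ 𝒢 : Met 𝒜) (h₀ : ∀ i, 𝒢₀.g i = gmat g₀ (𝒜.φ i))
    (h : ∀ i, 𝒢.g i = gmat g (𝒜.φ i)) (hc : ConfTo g₀ g) :
    ∃ (w : M → ℝ) (hw : 𝒜.Sm w) (hp : ∀ p, 0 < w p), 𝒢 = 𝒢₀.conf w hw hp := by sorry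

theorem confTo_of_conf (g₀ : RMet M) (𝒢₀ : Met 𝒜) (h₀ : ∀ i, 𝒢₀.g i = gmat g₀ (𝒜.φ i))
    (w : M → ℝ) (hw : 𝒜.Sm w) (hp : ∀ p, 0 < w p) :
    ∃ g : RMet M, ConfTo g₀ g ∧ ∀ i, (𝒢₀.conf w hw hp).g i = gmat g (𝒜.φ i) := by sorry

/-! ### LINK4 : the measure -/

theorem vol_of_isVol [T2Space M] [CompactSpace M] [MeasurableSpace M] [BorelSpace M]
    (g : RMet M) (𝒢 : Met 𝒜) (h : ∀ i, 𝒢.g i = gmat g (𝒜.φ i)) (μ : Measure M) (hμ : IsVol g μ) :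
    μ = 𝒢.vol := by sorry

theorem isVol_vol [T2Space M] [CompactSpace M] [MeasurableSpace M] [BorelSpace M]
    (g : RMet M) (𝒢 : Met 𝒜) (h : ∀ i, 𝒢.g i = gmat g (𝒜.φ i)) : IsVol g 𝒢.vol := by sorry

omit had

/-! ### LINK5 : assembly -/

/-- the internal form of the main theorem -/
def MainInternal.{u} : Prop :=
  ∀ (M : Type u) [TopologicalSpace M] [T2Space M] [CompactSpace M] [ConnectedSpace M]
    [MeasurableSpace M] [BorelSpace M] (𝒜 : Atl M) (𝒢 : Met 𝒜), (∀ p, 0 < 𝒢.scal p) →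
    (∀ ε > 0, ∃ (w : M → ℝ) (hw : 𝒜.Sm w) (hp : ∀ p, 0 < w p),
      (∀ p, 0 < (𝒢.conf w hw hp).scal p) ∧ 1 / 3 - ε < (𝒢.conf w hw hp).EE) →
    ∃ (Θ : M → ℝ) (hΘ : 𝒜.Sm Θ) (hp : ∀ p, 0 < Θ p),
      ∀ p, (𝒢.conf Θ hΘ hp).e2 p = 0 ∧ (𝒢.conf Θ hΘ hp).scal p = 6

theorem q1_of_mainInternal.{u} (h : MainInternal.{u}) : Q1.{u} := by sorry

end YR
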