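import Pool.Agent.Work.MP_71b0e8_gt.Skel.Loc2

/-! Skeleton: product and chain rules. `hG : LM U G` throughout. -/

open scoped ContDiff Topology
open MeasureTheory Metric Set Filter

noncomputable section

namespace YR

section

variable {U : Set E} {G : E → Mat} (hG : LM U G) {u v w f : E → ℝ} {x : E}

include hG

/-! ### LOC3 : product and chain rules -/

theorem inn_add_left (hu : DifferentiableAt ℝ u x) (hv : DifferentiableAt ℝ v x) :
    inn G (fun y => u y + v y) w x = inn G u w x + inn G v w x := by sorry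

theorem inn_mul_left (hu : DifferentiableAt ℝ u x) (hv : DifferentiableAt ℝ v x) :
    inn G (fun y => u y * v y) w x = u x * inn G v w x + v x * inn G u w x := by sorry

theorem inn_comp_left {F : ℝ → ℝ} {F' : ℝ} (hF : HasDerivAt F F' (u x))
    (hu : DifferentiableAt ℝ u x) : inn G (fun y => F (u y)) w x = F' * inn G u w x := by sorry

theorem hess_add (hu : ContDiffOn ℝ ∞ u U) (hv : ContDiffOn ℝ ∞ v U) (hx : x ∈ U)
    (a b : Fin 3) : hess G (fun y => u y + v y) a b x = hess G u a b x + hess G v a b x := by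
  sorry

theorem hess_mul (hu : ContDiffOn ℝ ∞ u U) (hv : ContDiffOn ℝ ∞ v U) (hx : x ∈ U)
    (a b : Fin 3) : hess G (fun y => u y * v y) a b x =
      u x * hess G v a b x + v x * hess G u a b x + pd a u x * pd b v x + pd b u x * pd a v x := by
  sorry

theorem hess_comp {F : ℝ → ℝ} {S : Set ℝ} (hS : IsOpen S) (hF : ContDiffOn ℝ ∞ F S)
    (hu : ContDiffOn ℝ ∞ u U) (hx : x ∈ U) (hm : ∀ y ∈ U, u y ∈ S) (a b : Fin 3) :
    hess G (fun y => F (u y)) a b x =
      deriv F (u x) * hess G u a b x + deriv (deriv F) (u x) * (pd a u x * pd b u x) := by sorry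

theorem lap_add (hu : ContDiffOn ℝ ∞ u U) (hv : ContDiffOn ℝ ∞ v U) (hx : x ∈ U) :
    lap G (fun y => u y + v y) x = lap G u x + lap G v x := by sorry

theorem lap_const_mul (hu : ContDiffOn ℝ ∞ u U) (hx : x ∈ U) (c : ℝ) :
    lap G (fun y => c * u y) x = c * lap G u x := by sorry

theorem lap_mul (hu : ContDiffOn ℝ ∞ u U) (hv : ContDiffOn ℝ ∞ v U) (hx : x ∈ U) :
    lap G (fun y => u y * v y) x = u x * lap G v x + v x * lap G u x + 2 * inn G u v x := by sorry

theorem lap_comp {F : ℝ → ℝ} {S : Set ℝ} (hS : IsOpen S) (hF : ContDiffOn ℝ ∞ F S)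
    (hu : ContDiffOn ℝ ∞ u U) (hx : x ∈ U) (hm : ∀ y ∈ U, u y ∈ S) :
    lap G (fun y => F (u y)) x =
      deriv F (u x) * lap G u x + deriv (deriv F) (u x) * inn G u u x := by sorry

end

end YR
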