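import Pool.Agent.Work.MP_71b0e8_gt.Skel.Loc3

/-! Skeleton: the Levi-Civita connection, polarization, Bochner. `hG : LM U G` throughout. -/

open scoped ContDiff Topology
open MeasureTheory Metric Set Filter

noncomputable section

namespace YR

section

variable {U : Set E} {G : E → Mat} (hG : LM U G) {u v w f : E → ℝ} {x : E}

include hG

/-! ### LOC4 : the Levi-Civita connection, polarization, Bochner -/

/-- metric compatibility -/
theorem pd_G (hx : x ∈ U) (c a b : Fin 3) :
    pd c (fun y => G y a b) x = ∑ k, (chr G k c a x * G x k b + chr G k c b x * G x a k) := by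
  sorry

theorem pd_gi (hx : x ∈ U) (c a b : Fin 3) :
    pd c (fun y => gi G y a b) x = -∑ k, (chr G a c k x * gi G x k b + chr G b c k x * gi G x a k)
    := by sorry

/-- `∂_c √det G = √det G Γ^k_{kc}` -/
theorem pd_sqrt_det (hx : x ∈ U) (c : Fin 3) :
    pd c (fun y => √(G y).det) x = √(G x).det * ∑ k, chr G k k c x := by sorry

/-- `d⟨du,dv⟩ = Hess u(·,∇v) + Hess v(·,∇u)` -/
theorem pd_inn (hu : ContDiffOn ℝ ∞ u U) (hv : ContDiffOn ℝ ∞ v U) (hx : x ∈ U) (c : Fin 3) :
    pd c (inn G u v) x =
      ∑ b, (hess G u c b x * grad G v b x + hess G v c b x * grad G u b x) := by sorry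

/-- polarization -/
theorem hess_polar (hw : ContDiffOn ℝ ∞ w U) (hu : ContDiffOn ℝ ∞ u U) (hv : ContDiffOn ℝ ∞ v U)
    (hx : x ∈ U) :
    2 * ev G (fun a b => hess G w a b x) u v x =
      inn G u (inn G w v) x + inn G v (inn G w u) x - inn G w (inn G u v) x := by sorry

/-- Ricci identity, contracted: `∇^a ∇_a ∇_b u = ∇_b Δu + Ric_{ab} ∇^a u` -/
theorem div_hess (hu : ContDiffOn ℝ ∞ u U) (hx : x ∈ U) (b : Fin 3) :
    ∑ a, ∑ c, gi G x a c * (pd c (hess G u a b) x -
        ∑ k, (chr G k c a x * hess G u k b x + chr G k c b x * hess G u a k x)) =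
      pd b (lap G u) x + ∑ a, ric G a b x * grad G u a x := by sorry

theorem bochner (hu : ContDiffOn ℝ ∞ u U) (hx : x ∈ U) :
    lap G (inn G u u) x / 2 =
      ip G (fun a b => hess G u a b x) (fun a b => hess G u a b x) x + inn G u (lap G u) x +
        ev G (fun a b => ric G a b x) u u x := by sorry

end

end YR
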