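import Pool.Agent.Work.MP_71b0e8_gt.Skel.Loc4

/-! Skeleton: symmetry of Ricci, Bianchi. `hG : LM U G` throughout. -/

open scoped ContDiff Topology
open MeasureTheory Metric Set Filter

noncomputable section

namespace YR

section

variable {U : Set E} {G : E → Mat} (hG : LM U G) {u v w f : E → ℝ} {x : E}

include hG

/-! ### LOC5 : symmetry of Ricci and the contracted Bianchi identity -/

theorem ric_symm (hx : x ∈ U) (a b : Fin 3) : ric G a b x = ric G b a x := by sorry

theorem bianchi (hx : x ∈ U) (b : Fin 3) :
    ∑ a, ∑ c, gi G x a c * (pd c (ric G a b) x -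
        ∑ k, (chr G k c a x * ric G k b x + chr G k c b x * ric G a k x)) =
      pd b (scal G) x / 2 := by sorry

/-- in dimension three the Riemann tensor is determined by the Ricci tensor -/
theorem riem_of_ric (hx : x ∈ U) (c : ℝ) (h : ∀ a b, ric G a b x = 2 * c * G x a b)
    (k l a b : Fin 3) : riem G k l a b x =
      c * ((if k = a then G x b l else 0) - (if k = b then G x a l else 0)) := by sorry

end

end YR
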