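import Pool.Agent.Work.MP_71b0e8_gt.Skel.Loc6

/-! Skeleton: the conformal metric. `hG : LM U G` throughout. -/

open scoped ContDiff Topology
open MeasureTheory Metric Set Filter

noncomputable section

namespace YR

section

variable {U : Set E} {G : E → Mat} (hG : LM U G) {u v w f : E → ℝ} {x : E}

include hG

/-! ### LOC7 : the conformal metric `w⁻² G` -/

theorem chr_cf (hw : ContDiffOn ℝ ∞ w U) (hp : ∀ y ∈ U, 0 < w y) (hx : x ∈ U) (k a b : Fin 3) :
    chr (cf G w) k a b x = chr G k a b x -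
      ((if k = a then pd b w x else 0) + (if k = b then pd a w x else 0) -
        G x a b * grad G w k x) / w x := by sorry

theorem inn_cf (hp : ∀ y ∈ U, 0 < w y) (hx : x ∈ U) :
    inn (cf G w) u v x = w x ^ 2 * inn G u v x := by sorry

theorem ip_cf (hp : ∀ y ∈ U, 0 < w y) (hx : x ∈ U) (h k : Fin 3 → Fin 3 → ℝ) :
    ip (cf G w) h k x = w x ^ 4 * ip G h k x := by sorry

theorem tr_cf (hp : ∀ y ∈ U, 0 < w y) (hx : x ∈ U) (h : Fin 3 → Fin 3 → ℝ) :
    tr (cf G w) h x = w x ^ 2 * tr G h x := by sorry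

theorem hess_cf (hw : ContDiffOn ℝ ∞ w U) (hp : ∀ y ∈ U, 0 < w y) (hu : ContDiffOn ℝ ∞ u U)
    (hx : x ∈ U) (a b : Fin 3) :
    hess (cf G w) u a b x = hess G u a b x +
      (pd a w x * pd b u x + pd b w x * pd a u x - inn G w u x * G x a b) / w x := by sorry

theorem lap_cf (hw : ContDiffOn ℝ ∞ w U) (hp : ∀ y ∈ U, 0 < w y) (hu : ContDiffOn ℝ ∞ u U)
    (hx : x ∈ U) : lap (cf G w) u x = w x ^ 2 * lap G u x - w x * inn G w u x := by sorry

theorem ric_cf (hw : ContDiffOn ℝ ∞ w U) (hp : ∀ y ∈ U, 0 < w y) (hx : x ∈ U) (a b : Fin 3) :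
    ric (cf G w) a b x = ric G a b x + hess G w a b x / w x +
      (lap G w x / w x - 2 * inn G w w x / w x ^ 2) * G x a b := by sorry

theorem scal_cf (hw : ContDiffOn ℝ ∞ w U) (hp : ∀ y ∈ U, 0 < w y) (hx : x ∈ U) :
    scal (cf G w) x = 6 * bb G w w x := by sorry

theorem ric0_cf (hw : ContDiffOn ℝ ∞ w U) (hp : ∀ y ∈ U, 0 < w y) (hx : x ∈ U) (a b : Fin 3) :
    ric0 (cf G w) a b x = TT G w a b x / w x := by sorry

/-- `σ₂ = R²/48 - |Ric⁰|²/2` -/
theorem sig2_eq (hx : x ∈ U) : sig2 G x = scal G x ^ 2 / 48 -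
    ip G (fun a b => ric0 G a b x) (fun a b => ric0 G a b x) x / 2 := by sorry

/-- `T(h w) = h T(w) + w (Hess_ĝ h)⁰` -/
theorem TT_mul (hw : ContDiffOn ℝ ∞ w U) (hp : ∀ y ∈ U, 0 < w y) (hu : ContDiffOn ℝ ∞ u U)
    (hx : x ∈ U) (a b : Fin 3) :
    TT G (fun y => u y * w y) a b x = u x * TT G w a b x +
      w x * (hess (cf G w) u a b x - lap (cf G w) u x / 3 * cf G w x a b) := by sorry

theorem bb_mul (hw : ContDiffOn ℝ ∞ w U) (hp : ∀ y ∈ U, 0 < w y) (hu : ContDiffOn ℝ ∞ u U)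
    (hv : ContDiffOn ℝ ∞ v U) (hx : x ∈ U) :
    bb G (fun y => u y * w y) (fun y => v y * w y) x = u x * v x * bb G w w x +
      (u x * lap (cf G w) v x + v x * lap (cf G w) u x) / 3 - inn (cf G w) u v x := by sorry

end

end YR
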