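import Pool.Agent.Work.MP_71b0e8_gt.Skel.Loc7

/-! Skeleton: divergences. `hG : LM U G` throughout. -/

open scoped ContDiff Topology
open MeasureTheory Metric Set Filter

noncomputable section

namespace YR

section

variable {U : Set E} {G : E → Mat} (hG : LM U G) {u v w f : E → ℝ} {x : E}

include hG

/-! ### LOC8 : divergences -/

/-- divergence of a gradient -/
theorem div_grad (hu : ContDiffOn ℝ ∞ u U) (hx : x ∈ U) :
    ∑ a, pd a (fun y => √(G y).det * grad G u a y) x = √(G x).det * lap G u x := by sorry

/-- divergence of `v Hess u (∇f)`: with `div_hess` -/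
theorem div_hess_grad (hu : ContDiffOn ℝ ∞ u U) (hf : ContDiffOn ℝ ∞ f U) (hx : x ∈ U) :
    ∑ a, pd a (fun y => √(G y).det * ∑ b, ∑ c, gi G y a b * (hess G u b c y * grad G f c y)) x =
      √(G x).det * (inn G (lap G u) f x + ev G (fun a b => ric G a b x) u f x +
        ip G (fun a b => hess G u a b x) (fun a b => hess G f a b x) x) := by sorry

/-- divergence of `Ric⁰(∇f)` -/
theorem div_ric0_grad (hf : ContDiffOn ℝ ∞ f U) (hx : x ∈ U) :
    ∑ a, pd a (fun y => √(G y).det * ∑ b, ∑ c, gi G y a b * (ric0 G b c y * grad G f c y)) x =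
      √(G x).det * (inn G (scal G) f x / 6 +
        ip G (fun a b => ric0 G a b x) (fun a b => hess G f a b x) x) := by sorry

end

end YR
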